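import Mathlib
import Pool.Agent.TH974.IH.Box

/-! IH-R5: the law inside one box. -/

set_option autoImplicit false

open Finset MeasureTheory ProbabilityTheory Filter Topology
open scoped ENNReal NNReal

namespace Pool.Agent.TH731.IHR5

open Pool.Agent.TH974.IH

theorem bern_prob {p : ℝ} (hp0 : 0 ≤ p) (hp1 : p ≤ 1) : IsProbabilityMeasure (bern p) := by
  constructor
  unfold bern
  rw [Measure.add_apply, Measure.smul_apply, Measure.smul_apply]
  simp only [measure_univ, smul_eq_mul, mul_one]
  rw [← ENNReal.ofReal_add hp0 (by linarith)]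
  simp

theorem bern_real {p : ℝ} (hp0 : 0 ≤ p) (hp1 : p ≤ 1) (b : Bool) :
    (bern p).real {b} = if b = true then p else 1 - p := by
  have h : bern p {b} = ENNReal.ofReal (if b = true then p else 1 - p) := by
    unfold bern
    rw [Measure.add_apply, Measure.smul_apply, Measure.smul_apply]
    cases b <;> simp
  rw [measureReal_def, h, ENNReal.toReal_ofReal]
  split_ifs <;> linarith

theorem box_law {d : ℕ} (p : ℝ) (hp0 : 0 ≤ p) (hp1 : p ≤ 1) (E : Finset (Ed d))
    (S : Set (Env d)) (hS : Dep (E : Set (Ed d)) S) :
    (perc d p).real S = ∑ η : E → Bool, (open Classical in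
      if (fun e => if h : e ∈ E then η ⟨e, h⟩ else false) ∈ S then wE p η else 0) := by
  classical
  haveI := bern_prob hp0 hp1
  have h1 : S = cylinder E {η : E → Bool | (fun e => if h : e ∈ E then η ⟨e, h⟩ else false) ∈ S} := by
    ext ω
    rw [mem_cylinder, Set.mem_setOf_eq]
    refine hS _ _ fun e he => ?_
    rw [dif_pos (show e ∈ E from he)]
    rfl
  have h2 : perc d p S = Measure.pi (fun _ : E => bern p)
      {η : E → Bool | (fun e => if h : e ∈ E then η ⟨e, h⟩ else false) ∈ S} := by
    conv_lhs => rw [h1]
    unfold perc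
    exact Measure.infinitePi_cylinder _ (Set.toFinite _).measurableSet
  have h3 : {η : E → Bool | (fun e => if h : e ∈ E then η ⟨e, h⟩ else false) ∈ S} =
      ((Finset.univ.filter fun η : E → Bool =>
        (fun e => if h : e ∈ E then η ⟨e, h⟩ else false) ∈ S : Finset (E → Bool)) :
        Set (E → Bool)) := by
    ext η
    simp
  rw [measureReal_def, h2, ← measureReal_def, h3, ← sum_measureReal_singleton, Finset.sum_filter]
  refine Finset.sum_congr rfl fun η _ => ?_
  congr 1
  rw [measureReal_def, Measure.pi_singleton, ENNReal.toReal_prod]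
  unfold wE
  refine Finset.prod_congr rfl fun e _ => ?_
  rw [← measureReal_def, bern_real hp0 hp1]

end Pool.Agent.TH731.IHR5
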