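import Mathlib
import Pool.Agent.TH974.IH.Box
import Pool.Agent.TH731.J2188

/-! IH-R4: gluing independent boxes. -/

set_option autoImplicit false

open Finset MeasureTheory ProbabilityTheory Filter Topology
open scoped ENNReal NNReal

namespace Pool.Agent.TH731.IHR4

open Pool.Agent.TH974.IH Pool.Agent.TH731.IHR5

theorem mem_cube {d : ℕ} {a b : ℤ} {x : Zd d} : x ∈ cube d a b ↔ ∀ i, a ≤ x i ∧ x i ≤ b := by
  unfold cube
  rw [Fintype.mem_piFinset]
  simp only [Finset.mem_Icc]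

theorem box_unique {d : ℕ} {L N : ℕ} (hL : 1 ≤ L) {E : Finset (Ed d)}
    (hE : ∀ e ∈ E, e.1 ∈ cube d 0 ((L : ℤ) - 1) ∧ hd e ∈ cube d 0 ((L : ℤ) - 1))
    {e : Ed d} {z z' : Fin d → Fin N} (h : (e.1 - pos L z, e.2) ∈ E)
    (h' : (e.1 - pos L z', e.2) ∈ E) : z = z' := by
  have h1 := mem_cube.mp (hE _ h).1
  have h2 := mem_cube.mp (hE _ h').1
  funext i
  have h3 := h1 i
  have h4 := h2 i
  simp only [Pi.sub_apply, pos] at h3 h4
  apply Fin.ext
  have hL' : (1 : ℤ) ≤ L := by exact_mod_cast hL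
  have h5 : (L : ℤ) * ((z i : ℕ) : ℤ) - (L : ℤ) * ((z' i : ℕ) : ℤ) < L := by linarith [h3.1, h4.2]
  have h6 : (L : ℤ) * ((z' i : ℕ) : ℤ) - (L : ℤ) * ((z i : ℕ) : ℤ) < L := by linarith [h3.2, h4.1]
  have h7 : ((z i : ℕ) : ℤ) - ((z' i : ℕ) : ℤ) < 1 := by
    by_contra hc
    push Not at hc
    nlinarith
  have h8 : ((z' i : ℕ) : ℤ) - ((z i : ℕ) : ℤ) < 1 := by
    by_contra hc
    push Not at hc
    nlinarith
  omega

theorem glue_eq {d : ℕ} {L N : ℕ} (hL : 1 ≤ L) {E : Finset (Ed d)}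
    (hE : ∀ e ∈ E, e.1 ∈ cube d 0 ((L : ℤ) - 1) ∧ hd e ∈ cube d 0 ((L : ℤ) - 1)) (ξ : Env d)
    (η : (Fin d → Fin N) → E → Bool) {e : Ed d} {z : Fin d → Fin N}
    (h : (e.1 - pos L z, e.2) ∈ E) : glue L E ξ η e = η z ⟨_, h⟩ := by
  unfold glue
  have hex : ∃ z : Fin d → Fin N, (e.1 - pos L z, e.2) ∈ E := ⟨z, h⟩
  rw [dif_pos hex]
  have hz : hex.choose = z := box_unique hL hE hex.choose_spec h
  have key : ∀ (z' : Fin d → Fin N) (h' : (e.1 - pos L z', e.2) ∈ E), z' = z →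
      η z' ⟨_, h'⟩ = η z ⟨_, h⟩ := by
    intro z' h' hz'
    subst hz'
    rfl
  exact key _ _ hz

theorem glue_out {d : ℕ} {L N : ℕ} {E : Finset (Ed d)} (ξ : Env d)
    (η : (Fin d → Fin N) → E → Bool) {e : Ed d}
    (h : ∀ z : Fin d → Fin N, (e.1 - pos L z, e.2) ∉ E) : glue L E ξ η e = ξ e := by
  unfold glue
  rw [dif_neg (by push Not; exact h)]

theorem glue_box {d : ℕ} (L N : ℕ) (hL : 1 ≤ L) (E : Finset (Ed d))
    (hE : ∀ e ∈ E, e.1 ∈ cube d 0 ((L : ℤ) - 1) ∧ hd e ∈ cube d 0 ((L : ℤ) - 1)) (ξ : Env d)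
    (η : (Fin d → Fin N) → E → Bool) :
    (∀ (z : Fin d → Fin N) (e : E), sh (pos L z) (glue L E ξ η) e = η z e) ∧
      ∀ e, (∀ z : Fin d → Fin N, e ∉ tE L E z) → glue L E ξ η e = ξ e := by
  refine ⟨fun z e => ?_, fun e he => glue_out ξ η he⟩
  unfold sh
  have h0 : (((e : Ed d).1 + pos L z, (e : Ed d).2).1 - pos L z, ((e : Ed d).1 + pos L z, (e : Ed d).2).2)
      = (e : Ed d) := by
    simp
  have h : (((e : Ed d).1 + pos L z, (e : Ed d).2).1 - pos L z,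
      ((e : Ed d).1 + pos L z, (e : Ed d).2).2) ∈ E := by
    rw [h0]; exact e.2
  rw [glue_eq hL hE ξ η h]
  congr 1
  exact Subtype.ext h0

/-- the edges of the large domain, as a finite set -/
noncomputable def FF (d N L : ℕ) : Finset (Ed d) := open Classical in
  ((DD d N L) ×ˢ (Finset.univ : Finset (Fin d))).filter fun e => hd e ∈ DD d N L

theorem mem_FF {d N L : ℕ} {e : Ed d} : e ∈ FF d N L ↔ e ∈ ED d N L := by
  classical
  unfold FF ED cedges DD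
  rw [Finset.mem_filter, Finset.mem_product]
  simp

theorem box_sub {d : ℕ} {L N : ℕ} {E : Finset (Ed d)}
    (hE : ∀ e ∈ E, e.1 ∈ cube d 0 ((L : ℤ) - 1) ∧ hd e ∈ cube d 0 ((L : ℤ) - 1))
    {e : Ed d} {z : Fin d → Fin N} (h : (e.1 - pos L z, e.2) ∈ E) : e ∈ FF d N L := by
  rw [mem_FF]
  obtain ⟨h1, h2⟩ := hE _ h
  have key : ∀ x : Zd d, x - pos L z ∈ cube d 0 ((L : ℤ) - 1) → x ∈ cube d 0 ((N : ℤ) * L - 1) := by
    intro x hx
    rw [mem_cube] at hx ⊢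
    intro i
    have h3 := hx i
    simp only [Pi.sub_apply, pos] at h3
    have hz : ((z i : ℕ) : ℤ) + 1 ≤ N := by
      have := (z i).2
      exact_mod_cast this
    have hz0 : (0 : ℤ) ≤ ((z i : ℕ) : ℤ) := Int.natCast_nonneg _
    have hL0 : (0 : ℤ) ≤ (L : ℤ) := Int.natCast_nonneg _
    constructor
    · nlinarith [h3.1]
    · nlinarith [h3.2]
  refine ⟨key _ h1, key _ ?_⟩
  have : hd e - pos L z = hd ((e.1 - pos L z, e.2) : Ed d) := by
    unfold hd
    simp only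
    abel
  rw [this]
  exact h2

/-- extension of a finite configuration by `false` -/
noncomputable def exf {d : ℕ} (F : Finset (Ed d)) (η : F → Bool) : Env d := open Classical in
  fun e => if h : e ∈ F then η ⟨e, h⟩ else false

theorem exf_inj {d : ℕ} (F : Finset (Ed d)) : Function.Injective (exf F) := by
  intro η η' h
  funext e
  have h1 := congrFun h e
  unfold exf at h1
  rw [dif_pos e.2, dif_pos e.2] at h1
  exact h1

/-- the edges outside of the boxes -/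
noncomputable def RR {d : ℕ} (L N : ℕ) (E : Finset (Ed d)) : Finset (Ed d) := open Classical in
  (FF d N L).filter fun e => ∀ z : Fin d → Fin N, (e.1 - pos L z, e.2) ∉ E

theorem mem_RR {d : ℕ} {L N : ℕ} {E : Finset (Ed d)} {e : Ed d} :
    e ∈ RR L N E ↔ e ∈ FF d N L ∧ ∀ z : Fin d → Fin N, (e.1 - pos L z, e.2) ∉ E := by
  classical
  unfold RR
  rw [Finset.mem_filter]

/-- the decomposition of the set of edges -/
noncomputable def bm {d : ℕ} (L N : ℕ) (E : Finset (Ed d))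
    (hE : ∀ e ∈ E, e.1 ∈ cube d 0 ((L : ℤ) - 1) ∧ hd e ∈ cube d 0 ((L : ℤ) - 1)) :
    (RR L N E ⊕ ((Fin d → Fin N) × E)) → FF d N L :=
  Sum.elim (fun r => ⟨r.1, (mem_RR.mp r.2).1⟩) (fun q => ⟨(q.2.1.1 + pos L q.1, q.2.1.2),
    box_sub (z := q.1) hE (by simp [q.2.2])⟩)

theorem bm_bij {d : ℕ} (L N : ℕ) (hL : 1 ≤ L) (E : Finset (Ed d))
    (hE : ∀ e ∈ E, e.1 ∈ cube d 0 ((L : ℤ) - 1) ∧ hd e ∈ cube d 0 ((L : ℤ) - 1)) :
    Function.Bijective (bm L N E hE) := by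
  constructor
  · intro s t h
    have h' : (bm L N E hE s).1 = (bm L N E hE t).1 := congrArg Subtype.val h
    rcases s with r | ⟨z, e⟩ <;> rcases t with r' | ⟨z', e'⟩
    · congr 1
      exact Subtype.ext h'
    · exfalso
      have h1 : (r : Ed d) = (e'.1.1 + pos L z', e'.1.2) := h'
      apply (mem_RR.mp r.2).2 z'
      rw [h1]
      simp [e'.2]
    · exfalso
      have h1 : (e.1.1 + pos L z, e.1.2) = (r' : Ed d) := h'
      apply (mem_RR.mp r'.2).2 z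
      rw [← h1]
      simp [e.2]
    · have h1 : ((e.1.1 + pos L z, e.1.2) : Ed d) = (e'.1.1 + pos L z', e'.1.2) := h'
      have hz : z = z' := by
        refine box_unique (e := (e.1.1 + pos L z, e.1.2)) hL hE ?_ ?_
        · simp [e.2]
        · rw [h1]; simp [e'.2]
      subst hz
      have h2 := (Prod.mk.injEq _ _ _ _).mp h1
      have h3 : e.1.1 = e'.1.1 := add_right_cancel h2.1
      have h4 : e = e' := Subtype.ext (Prod.ext h3 h2.2)
      rw [h4]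
  · rintro ⟨e, he⟩
    by_cases h : ∃ z : Fin d → Fin N, (e.1 - pos L z, e.2) ∈ E
    · obtain ⟨z, hz⟩ := h
      refine ⟨Sum.inr (z, ⟨_, hz⟩), Subtype.ext ?_⟩
      show ((e.1 - pos L z) + pos L z, e.2) = e
      rw [sub_add_cancel]
    · push Not at h
      exact ⟨Sum.inl ⟨e, mem_RR.mpr ⟨he, h⟩⟩, rfl⟩

/-- configurations on the large domain -/
noncomputable def cf {d : ℕ} (L N : ℕ) (hL : 1 ≤ L) (E : Finset (Ed d))
    (hE : ∀ e ∈ E, e.1 ∈ cube d 0 ((L : ℤ) - 1) ∧ hd e ∈ cube d 0 ((L : ℤ) - 1)) :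
    ((RR L N E → Bool) × ((Fin d → Fin N) → E → Bool)) ≃ (FF d N L → Bool) :=
  ((Equiv.refl _).prodCongr (Equiv.curry (Fin d → Fin N) E Bool).symm).trans
    ((Equiv.sumArrowEquivProdArrow _ _ _).symm.trans
      (Equiv.arrowCongr (Equiv.ofBijective _ (bm_bij L N hL E hE)) (Equiv.refl Bool)))

theorem cf_bm {d : ℕ} (L N : ℕ) (hL : 1 ≤ L) (E : Finset (Ed d))
    (hE : ∀ e ∈ E, e.1 ∈ cube d 0 ((L : ℤ) - 1) ∧ hd e ∈ cube d 0 ((L : ℤ) - 1))
    (ξ : RR L N E → Bool) (η : (Fin d → Fin N) → E → Bool)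
    (s : RR L N E ⊕ ((Fin d → Fin N) × E)) :
    cf L N hL E hE (ξ, η) (bm L N E hE s) = Sum.elim ξ (fun q => η q.1 q.2) s := by
  have h : (Equiv.ofBijective _ (bm_bij L N hL E hE)).symm (bm L N E hE s) = s :=
    (Equiv.ofBijective _ (bm_bij L N hL E hE)).symm_apply_apply s
  show Sum.elim ξ (fun q => η q.1 q.2)
    ((Equiv.ofBijective _ (bm_bij L N hL E hE)).symm (bm L N E hE s)) = _
  rw [h]

theorem wE_cf {d : ℕ} (p : ℝ) (L N : ℕ) (hL : 1 ≤ L) (E : Finset (Ed d))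
    (hE : ∀ e ∈ E, e.1 ∈ cube d 0 ((L : ℤ) - 1) ∧ hd e ∈ cube d 0 ((L : ℤ) - 1))
    (ξ : RR L N E → Bool) (η : (Fin d → Fin N) → E → Bool) :
    wE p (cf L N hL E hE (ξ, η)) = wE p ξ * ∏ z, wE p (η z) := by
  unfold wE
  rw [← Fintype.prod_equiv (Equiv.ofBijective _ (bm_bij L N hL E hE))
    (fun s => if (Sum.elim ξ (fun q => η q.1 q.2) s) = true then p else 1 - p) _ (fun s => by
      show _ = if cf L N hL E hE (ξ, η) (bm L N E hE s) = true then p else 1 - p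
      rw [cf_bm])]
  rw [Fintype.prod_sum_type, Fintype.prod_prod_type]
  rfl

theorem exf_cf {d : ℕ} (L N : ℕ) (hL : 1 ≤ L) (E : Finset (Ed d))
    (hE : ∀ e ∈ E, e.1 ∈ cube d 0 ((L : ℤ) - 1) ∧ hd e ∈ cube d 0 ((L : ℤ) - 1))
    (ξ : RR L N E → Bool) (η : (Fin d → Fin N) → E → Bool) :
    exf (FF d N L) (cf L N hL E hE (ξ, η)) = glue L E (exf (RR L N E) ξ) η := by
  funext e
  by_cases he : e ∈ FF d N L
  · obtain ⟨s, hs⟩ := (bm_bij L N hL E hE).2 ⟨e, he⟩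
    have h1 : exf (FF d N L) (cf L N hL E hE (ξ, η)) e = cf L N hL E hE (ξ, η) ⟨e, he⟩ := by
      unfold exf
      rw [dif_pos he]
    rw [h1, ← hs, cf_bm]
    have hs' : (bm L N E hE s).1 = e := congrArg Subtype.val hs
    rcases s with r | ⟨z, e'⟩
    · have h2 : (r : Ed d) = e := hs'
      have h3 : ∀ z : Fin d → Fin N, (e.1 - pos L z, e.2) ∉ E := by
        rw [← h2]; exact (mem_RR.mp r.2).2
      rw [glue_out _ _ h3]
      unfold exf
      rw [dif_pos (h2 ▸ r.2)]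
      show ξ r = _
      congr 1
      exact Subtype.ext h2
    · have h2 : ((e'.1.1 + pos L z, e'.1.2) : Ed d) = e := hs'
      have h3 : (e.1 - pos L z, e.2) = e'.1 := by
        rw [← h2]; simp
      have h4 : (e.1 - pos L z, e.2) ∈ E := by rw [h3]; exact e'.2
      rw [glue_eq hL hE _ η h4]
      show η z e' = _
      congr 1
      exact Subtype.ext h3.symm
  · have h1 : exf (FF d N L) (cf L N hL E hE (ξ, η)) e = false := by
      unfold exf
      rw [dif_neg he]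
    have h2 : ∀ z : Fin d → Fin N, (e.1 - pos L z, e.2) ∉ E := fun z hz => he (box_sub hE hz)
    have h3 : e ∉ RR L N E := fun h => he (mem_RR.mp h).1
    rw [h1, glue_out _ _ h2]
    unfold exf
    rw [dif_neg h3]

theorem wE_nonneg {d : ℕ} {p : ℝ} (hp0 : 0 ≤ p) (hp1 : p ≤ 1) {E : Finset (Ed d)}
    (η : E → Bool) : 0 ≤ wE p η := by
  unfold wE
  refine Finset.prod_nonneg fun e _ => ?_
  split_ifs <;> linarith

theorem wE_sum {d : ℕ} {p : ℝ} (hp0 : 0 ≤ p) (hp1 : p ≤ 1) (E : Finset (Ed d)) :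
    ∑ η : E → Bool, wE p η = 1 := by
  classical
  have h := box_law p hp0 hp1 E (Set.univ : Set (Env d)) (fun _ _ _ => Iff.rfl)
  have := bern_prob hp0 hp1
  have h1 : (perc d p).real Set.univ = 1 := by
    unfold perc
    simp
  rw [h1] at h
  rw [h]
  refine Finset.sum_congr rfl fun η _ => ?_
  rw [if_pos (Set.mem_univ _)]

theorem glue_law {d : ℕ} (p : ℝ) (hp0 : 0 ≤ p) (hp1 : p ≤ 1) (L N : ℕ) (hL : 1 ≤ L)
    (E : Finset (Ed d)) (hE : ∀ e ∈ E, e.1 ∈ cube d 0 ((L : ℤ) - 1) ∧ hd e ∈ cube d 0 ((L : ℤ) - 1)) :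
    ∃ (Ξ : Finset (Env d)) (w0 : Env d → ℝ), (∀ ξ, 0 ≤ w0 ξ) ∧ ∑ ξ ∈ Ξ, w0 ξ = 1 ∧
      ∀ A : Set (Env d), Dep (ED d N L) A → (perc d p).real A =
        ∑ ξ ∈ Ξ, w0 ξ * ∑ η : ((Fin d → Fin N) → E → Bool), (open Classical in
          if glue L E ξ η ∈ A then ∏ z, wE p (η z) else 0) := by
  classical
  have hw : ∀ ξ : RR L N E → Bool,
      wE p (fun e : RR L N E => exf (RR L N E) ξ e) = wE p ξ := by
    intro ξ
    congr 1
    funext e
    unfold exf
    rw [dif_pos e.2]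
  refine ⟨Finset.univ.image (exf (RR L N E)), fun ω => wE p (fun e : RR L N E => ω e),
    fun ξ => wE_nonneg hp0 hp1 _, ?_, fun A hA => ?_⟩
  · rw [Finset.sum_image (fun a _ b _ h => exf_inj _ h)]
    rw [← wE_sum hp0 hp1 (RR L N E)]
    exact Finset.sum_congr rfl fun ξ _ => hw ξ
  · have hA' : Dep ((FF d N L : Finset (Ed d)) : Set (Ed d)) A := by
      intro ω ω' h
      exact hA ω ω' (fun e he => h e (mem_FF.mpr he))
    rw [box_law p hp0 hp1 (FF d N L) A hA', Finset.sum_image (fun a _ b _ h => exf_inj _ h)]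
    rw [← Equiv.sum_comp (cf L N hL E hE), Fintype.sum_prod_type]
    refine Finset.sum_congr rfl fun ξ _ => ?_
    beta_reduce
    rw [hw, Finset.mul_sum]
    refine Finset.sum_congr rfl fun η _ => ?_
    have h1 : (fun e => if h : e ∈ FF d N L then cf L N hL E hE (ξ, η) ⟨e, h⟩ else false)
        = glue L E (exf (RR L N E) ξ) η := by
      rw [← exf_cf L N hL E hE ξ η]
      unfold exf
      funext e
      congr
    rw [h1, wE_cf]
    split_ifs with h2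
    · rfl
    · rw [mul_zero]

end Pool.Agent.TH731.IHR4
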