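import Mathlib
import Pool.Agent.TH974.IH.Box

/-! IH-N1: elementary facts on resistor networks. -/

set_option autoImplicit false

open Finset MeasureTheory ProbabilityTheory Filter Topology
open scoped ENNReal NNReal

namespace Pool.Agent.TH731.IHN1

open Pool.Agent.TH974.IH

theorem dv_cast {V : Type*} [DecidableEq V] (E : Finset (V × V)) (u : V → ℤ) (x : V) :
    dv E (fun v => (u v : ℚ)) x = ((dv E u x : ℤ) : ℚ) := by
  unfold dv
  push_cast
  rfl

theorem OP_symm {V : Type*} [DecidableEq V] {adj : V → V → Prop} {S : Set V} {E : Finset (V × V)}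
    {a b : V} {r : ℚ} (h : OP adj S E a b r) : OP adj S E b a r := by
  obtain ⟨nw, ha, hb, hab, H⟩ := h
  refine ⟨nw, hb, ha, hab.symm, fun u hu => ?_⟩
  obtain ⟨h1, h2⟩ := H u (fun x hx hxa hxb => hu x hx hxb hxa)
  refine ⟨by rw [h1]; ring, ?_⟩
  rw [h1]
  linear_combination -h2

theorem GD_symm {V : Type*} [DecidableEq V] {adj : V → V → Prop} {S : Set V} {E : Finset (V × V)}
    {a b : V} {r : ℚ} {q : ℕ} (h : GD adj S E a b r q) : GD adj S E b a r q := by
  obtain ⟨h1, h2⟩ := h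
  refine ⟨OP_symm h1, fun u hu => ?_⟩
  have hu' : ∀ x ∈ S, x ≠ a → x ≠ b → dv E u x = 0 := fun x hx hxa hxb => hu x hx hxb hxa
  have h3 := h2 u hu'
  obtain ⟨h4, -⟩ := h1.2.2.2.2 (fun v => (u v : ℚ)) (fun x hx hxa hxb => by
    rw [dv_cast, hu' x hx hxa hxb]; simp)
  rw [dv_cast, dv_cast] at h4
  have h5 : dv E u b = - dv E u a := by exact_mod_cast h4
  rw [h5]
  exact (dvd_neg).mpr h3

theorem OP_mono {V : Type*} [DecidableEq V] {adj : V → V → Prop} {S S' : Set V}
    {E : Finset (V × V)} {a b : V} {r : ℚ} (h : OP adj S E a b r) (hS : S ⊆ S') :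
    OP adj S' E a b r := by
  obtain ⟨nw, ha, hb, hab, H⟩ := h
  exact ⟨⟨fun e he => ⟨hS (nw.mem e he).1, hS (nw.mem e he).2⟩, nw.adj, nw.anti⟩, hS ha, hS hb, hab,
    fun u hu => H u (fun x hx => hu x (hS hx))⟩

theorem GD_mono {V : Type*} [DecidableEq V] {adj : V → V → Prop} {S S' : Set V}
    {E : Finset (V × V)} {a b : V} {r : ℚ} {q : ℕ} (h : GD adj S E a b r q) (hS : S ⊆ S') :
    GD adj S' E a b r q :=
  ⟨OP_mono h.1 hS, fun u hu => h.2 u (fun x hx => hu x (hS hx))⟩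

theorem OP_edge {V : Type*} [DecidableEq V] {adj : V → V → Prop} {a b : V} (hab : a ≠ b)
    (h : adj a b) : OP adj {a, b} {(a, b)} a b 1 := by
  refine ⟨⟨?_, ?_, ?_⟩, by simp, by simp, hab, ?_⟩
  · intro e he
    rw [Finset.mem_singleton] at he
    subst he
    simp
  · intro e he
    rw [Finset.mem_singleton] at he
    subst he
    exact h
  · intro x y hxy hyx
    rw [Finset.mem_singleton, Prod.mk.injEq] at hxy hyx
    exact hab (hxy.1.symm.trans hyx.2)
  · intro u _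
    unfold dv
    rw [Finset.sum_singleton, Finset.sum_singleton]
    simp only [hab, hab.symm, if_true, if_false]
    constructor <;> ring

theorem OP_GD {V : Type*} [DecidableEq V] {adj : V → V → Prop} {S : Set V} {E : Finset (V × V)}
    {a b : V} {r : ℚ} {q : ℕ} (h : OP adj S E a b r) (hq : q.Prime) (A D : ℕ) (hr : r * D = A)
    (hD : q ∣ D) (hA : ¬ q ∣ A) : GD adj S E a b r q := by
  refine ⟨h, fun u hu => ?_⟩
  obtain ⟨-, h5⟩ := h.2.2.2.2 (fun v => (u v : ℚ)) (fun x hx hxa hxb => by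
    rw [dv_cast, hu x hx hxa hxb]; simp)
  rw [dv_cast] at h5
  have h6 : ((u b : ℚ) - u a) * D = A * ((dv E u a : ℤ) : ℚ) := by
    rw [← hr]
    have h5' : (u b : ℚ) - u a = r * ((dv E u a : ℤ) : ℚ) := h5
    rw [h5']; ring
  have h7 : (u b - u a) * (D : ℤ) = (A : ℤ) * dv E u a := by exact_mod_cast h6
  have h8 : (q : ℤ) ∣ (A : ℤ) * dv E u a := by
    rw [← h7]
    exact Dvd.dvd.mul_left (Int.natCast_dvd_natCast.mpr hD) _
  rcases (Nat.prime_iff_prime_int.mp hq).dvd_or_dvd h8 with h9 | h9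
  · exact absurd (Int.natCast_dvd_natCast.mp h9) hA
  · exact h9

end Pool.Agent.TH731.IHN1
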