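import Mathlib
import Pool.Agent.TH974.IH.Box

/-! IH-N3: series and parallel laws for networks. -/

set_option autoImplicit false

open Finset MeasureTheory ProbabilityTheory Filter Topology
open scoped ENNReal NNReal

namespace Pool.Agent.TH731.IHN3

open Pool.Agent.TH974.IH

theorem dv_cast {V : Type*} [DecidableEq V] (E : Finset (V × V)) (u : V → ℤ) (x : V) :
    dv E (fun v => (u v : ℚ)) x = ((dv E u x : ℤ) : ℚ) := by
  unfold dv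
  push_cast
  rfl

theorem dv_union {V : Type*} [DecidableEq V] {R : Type*} [CommRing R] {E₁ E₂ : Finset (V × V)}
    (h : Disjoint E₁ E₂) (u : V → R) (x : V) : dv (E₁ ∪ E₂) u x = dv E₁ u x + dv E₂ u x := by
  unfold dv
  exact Finset.sum_union h

theorem dv_out {V : Type*} [DecidableEq V] {R : Type*} [CommRing R] {adj : V → V → Prop}
    {S : Set V} {E : Finset (V × V)} (h : Nw adj S E) (u : V → R) {x : V} (hx : x ∉ S) :
    dv E u x = 0 := by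
  unfold dv
  refine Finset.sum_eq_zero fun e he => ?_
  have h1 := h.mem e he
  have h2 : e.1 ≠ x := fun h' => hx (h' ▸ h1.1)
  have h3 : e.2 ≠ x := fun h' => hx (h' ▸ h1.2)
  rw [if_neg h2, if_neg h3, add_zero]

/-- disjointness and absence of antiparallel edges across two networks -/
theorem nw_union {V : Type*} [DecidableEq V] {adj : V → V → Prop}
    {S₁ S₂ : Set V} {E₁ E₂ : Finset (V × V)} (h₁ : Nw adj S₁ E₁) (h₂ : Nw adj S₂ E₂)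
    (h : ∀ x y, x ∈ S₁ → x ∈ S₂ → y ∈ S₁ → y ∈ S₂ → ¬ adj x y) :
    Disjoint E₁ E₂ ∧ Nw adj (S₁ ∪ S₂) (E₁ ∪ E₂) := by
  constructor
  · rw [Finset.disjoint_left]
    intro e he1 he2
    exact h e.1 e.2 (h₁.mem e he1).1 (h₂.mem e he2).1 (h₁.mem e he1).2 (h₂.mem e he2).2
      (h₁.adj e he1)
  · refine ⟨?_, ?_, ?_⟩
    · intro e he
      rcases Finset.mem_union.mp he with he | he
      · exact ⟨Or.inl (h₁.mem e he).1, Or.inl (h₁.mem e he).2⟩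
      · exact ⟨Or.inr (h₂.mem e he).1, Or.inr (h₂.mem e he).2⟩
    · intro e he
      rcases Finset.mem_union.mp he with he | he
      · exact h₁.adj e he
      · exact h₂.adj e he
    · intro x y hxy hyx
      rcases Finset.mem_union.mp hxy with h3 | h3 <;> rcases Finset.mem_union.mp hyx with h4 | h4
      · exact h₁.anti x y h3 h4
      · exact h x y (h₁.mem _ h3).1 (h₂.mem _ h4).2 (h₁.mem _ h3).2 (h₂.mem _ h4).1
          (h₁.adj _ h3)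
      · exact h x y (h₁.mem _ h4).2 (h₂.mem _ h3).1 (h₁.mem _ h4).1 (h₂.mem _ h3).2
          (h₂.adj _ h3)
      · exact h₂.anti x y h3 h4

/-- the facts used for the series law, over any ring -/
theorem series_facts {V : Type*} [DecidableEq V] {R : Type*} [CommRing R] {adj : V → V → Prop}
    (hirr : ∀ x, ¬ adj x x) {S₁ S₂ : Set V} {E₁ E₂ : Finset (V × V)} {a j b : V}
    (n₁ : Nw adj S₁ E₁) (n₂ : Nw adj S₂ E₂) (ha : a ∈ S₁) (hj1 : j ∈ S₁)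
    (hb : b ∈ S₂) (haj : a ≠ j) (hjb : j ≠ b) (hS : ∀ x ∈ S₁, x ∈ S₂ → x = j) (u : V → R)
    (hu : ∀ x ∈ S₁ ∪ S₂, x ≠ a → x ≠ b → dv (E₁ ∪ E₂) u x = 0) :
    (∀ x ∈ S₁, x ≠ a → x ≠ j → dv E₁ u x = 0) ∧ (∀ x ∈ S₂, x ≠ j → x ≠ b → dv E₂ u x = 0) ∧
    dv E₁ u j + dv E₂ u j = 0 ∧ dv (E₁ ∪ E₂) u a = dv E₁ u a ∧
    dv (E₁ ∪ E₂) u b = dv E₂ u b := by
  have haS : a ∉ S₂ := fun h => haj (hS a ha h)
  have hbS : b ∉ S₁ := fun h => hjb (hS b h hb).symm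
  have hd := (nw_union n₁ n₂ (fun x y hx1 hx2 hy1 hy2 => by
    rw [hS x hx1 hx2, hS y hy1 hy2]; exact hirr j)).1
  refine ⟨fun x hx hxa hxj => ?_, fun x hx hxj hxb => ?_, ?_, ?_, ?_⟩
  · have h1 : x ∉ S₂ := fun h => hxj (hS x hx h)
    have h2 : x ≠ b := fun h => hbS (h ▸ hx)
    have h3 := hu x (Or.inl hx) hxa h2
    rw [dv_union hd, dv_out n₂ u h1, add_zero] at h3
    exact h3
  · have h1 : x ∉ S₁ := fun h => hxj (hS x h hx)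
    have h2 : x ≠ a := fun h => haS (h ▸ hx)
    have h3 := hu x (Or.inr hx) h2 hxb
    rw [dv_union hd, dv_out n₁ u h1, zero_add] at h3
    exact h3
  · rw [← dv_union hd]
    exact hu j (Or.inl hj1) haj.symm hjb
  · rw [dv_union hd, dv_out n₂ u haS, add_zero]
  · rw [dv_union hd, dv_out n₁ u hbS, zero_add]

theorem OP_series {V : Type*} [DecidableEq V] {adj : V → V → Prop} (hirr : ∀ x, ¬ adj x x)
    {S₁ S₂ : Set V} {E₁ E₂ : Finset (V × V)} {a j b : V} {r₁ r₂ : ℚ} (h₁ : OP adj S₁ E₁ a j r₁)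
    (h₂ : OP adj S₂ E₂ j b r₂) (hS : ∀ x ∈ S₁, x ∈ S₂ → x = j) :
    OP adj (S₁ ∪ S₂) (E₁ ∪ E₂) a b (r₁ + r₂) := by
  obtain ⟨n₁, ha, hj1, haj, H₁⟩ := h₁
  obtain ⟨n₂, hj2, hb, hjb, H₂⟩ := h₂
  have haS : a ∉ S₂ := fun h => haj (hS a ha h)
  have hab : a ≠ b := fun h => haS (h ▸ hb)
  refine ⟨(nw_union n₁ n₂ (fun x y hx1 hx2 hy1 hy2 => by
    rw [hS x hx1 hx2, hS y hy1 hy2]; exact hirr j)).2, Or.inl ha, Or.inr hb, hab, fun u hu => ?_⟩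
  obtain ⟨f1, f2, f3, f4, f5⟩ := series_facts hirr n₁ n₂ ha hj1 hb haj hjb hS u hu
  obtain ⟨g1, g2⟩ := H₁ u f1
  obtain ⟨g3, g4⟩ := H₂ u f2
  rw [f4, f5]
  have h5 : dv E₂ u j = dv E₁ u a := by linear_combination f3 - g1
  refine ⟨by rw [g3, h5], ?_⟩
  rw [h5] at g4
  linear_combination g2 + g4

theorem GD_series_left {V : Type*} [DecidableEq V] {adj : V → V → Prop} (hirr : ∀ x, ¬ adj x x)
    {S₁ S₂ : Set V} {E₁ E₂ : Finset (V × V)} {a j b : V} {r₁ r₂ : ℚ} {q : ℕ}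
    (h₁ : GD adj S₁ E₁ a j r₁ q) (h₂ : OP adj S₂ E₂ j b r₂) (hS : ∀ x ∈ S₁, x ∈ S₂ → x = j) :
    GD adj (S₁ ∪ S₂) (E₁ ∪ E₂) a b (r₁ + r₂) q := by
  refine ⟨OP_series hirr h₁.1 h₂ hS, fun u hu => ?_⟩
  obtain ⟨⟨n₁, ha, hj1, haj, -⟩, G₁⟩ := h₁
  obtain ⟨n₂, hj2, hb, hjb, -⟩ := h₂
  obtain ⟨f1, f2, f3, f4, f5⟩ := series_facts hirr n₁ n₂ ha hj1 hb haj hjb hS u hu
  rw [f4]
  exact G₁ u f1

theorem GD_series_right {V : Type*} [DecidableEq V] {adj : V → V → Prop} (hirr : ∀ x, ¬ adj x x)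
    {S₁ S₂ : Set V} {E₁ E₂ : Finset (V × V)} {a j b : V} {r₁ r₂ : ℚ} {q : ℕ}
    (h₁ : OP adj S₁ E₁ a j r₁) (h₂ : GD adj S₂ E₂ j b r₂ q) (hS : ∀ x ∈ S₁, x ∈ S₂ → x = j) :
    GD adj (S₁ ∪ S₂) (E₁ ∪ E₂) a b (r₁ + r₂) q := by
  refine ⟨OP_series hirr h₁ h₂.1 hS, fun u hu => ?_⟩
  obtain ⟨n₁, ha, hj1, haj, H₁⟩ := h₁
  obtain ⟨⟨n₂, hj2, hb, hjb, -⟩, G₂⟩ := h₂
  obtain ⟨f1, f2, f3, f4, f5⟩ := series_facts hirr n₁ n₂ ha hj1 hb haj hjb hS u hu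
  rw [f4]
  obtain ⟨g1, -⟩ := H₁ (fun v => (u v : ℚ)) (fun x hx hxa hxj => by
    rw [dv_cast, f1 x hx hxa hxj]; simp)
  rw [dv_cast, dv_cast] at g1
  have g1' : dv E₁ u j = - dv E₁ u a := by exact_mod_cast g1
  have h5 : dv E₂ u j = dv E₁ u a := by linear_combination f3 - g1'
  rw [← h5]
  exact G₂ u f2

theorem OP_parallel {V : Type*} [DecidableEq V] {adj : V → V → Prop} (hirr : ∀ x, ¬ adj x x)
    {S₁ S₂ : Set V} {E₁ E₂ : Finset (V × V)} {a b : V} {r₁ r₂ : ℚ} (h₁ : OP adj S₁ E₁ a b r₁)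
    (h₂ : OP adj S₂ E₂ a b r₂) (hS : ∀ x ∈ S₁, x ∈ S₂ → x = a ∨ x = b) (hab : ¬ adj a b)
    (hba : ¬ adj b a) (hr₁ : 0 < r₁) (hr₂ : 0 < r₂) :
    OP adj (S₁ ∪ S₂) (E₁ ∪ E₂) a b (par r₁ r₂) := by
  obtain ⟨n₁, ha, hb, hne, H₁⟩ := h₁
  obtain ⟨n₂, ha', hb', -, H₂⟩ := h₂
  obtain ⟨hd, hn⟩ := nw_union n₁ n₂ (fun x y hx1 hx2 hy1 hy2 => by
    rcases hS x hx1 hx2 with h | h <;> rcases hS y hy1 hy2 with h' | h' <;> rw [h, h']
    · exact hirr a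
    · exact hab
    · exact hba
    · exact hirr b)
  refine ⟨hn, Or.inl ha, Or.inl hb, hne, fun u hu => ?_⟩
  have f1 : ∀ x ∈ S₁, x ≠ a → x ≠ b → dv E₁ u x = 0 := by
    intro x hx hxa hxb
    have h1 : x ∉ S₂ := fun h => (hS x hx h).elim hxa hxb
    have h3 := hu x (Or.inl hx) hxa hxb
    rw [dv_union hd, dv_out n₂ u h1, add_zero] at h3
    exact h3
  have f2 : ∀ x ∈ S₂, x ≠ a → x ≠ b → dv E₂ u x = 0 := by
    intro x hx hxa hxb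
    have h1 : x ∉ S₁ := fun h => (hS x h hx).elim hxa hxb
    have h3 := hu x (Or.inr hx) hxa hxb
    rw [dv_union hd, dv_out n₁ u h1, zero_add] at h3
    exact h3
  obtain ⟨g1, g2⟩ := H₁ u f1
  obtain ⟨g3, g4⟩ := H₂ u f2
  rw [dv_union hd, dv_union hd]
  refine ⟨by rw [g1, g3]; ring, ?_⟩
  unfold par
  have h0 : r₁ + r₂ ≠ 0 := by positivity
  rw [div_mul_eq_mul_div, eq_div_iff h0]
  linear_combination r₂ * g2 + r₁ * g4

end Pool.Agent.TH731.IHN3
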