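import Mathlib
import Pool.Agent.TH974.IH.Box
import Pool.Agent.TH731.J2146
import Pool.Agent.TH731.J2148
import Pool.Agent.TH558.J2147

/-! IH-P1: planar straight segments, rails with teeth, rungs with wiggles. -/

set_option autoImplicit false
set_option linter.unusedSimpArgs false

open Finset MeasureTheory ProbabilityTheory Filter Topology
open scoped ENNReal NNReal

namespace Pool.Agent.TH731.IHP

open Pool.Agent.TH974.IH Pool.Agent.TH731.IHN1 Pool.Agent.TH731.IHN3 Pool.Agent.TH558.IH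

/-- planar networks, without naming the set of edges -/
def Q (S : Set (ℤ × ℤ)) (a b : ℤ × ℤ) (r : ℚ) : Prop := ∃ E, OP adj2 S E a b r

theorem adj2_irr (x : ℤ × ℤ) : ¬ adj2 x x := by
  unfold adj2
  simp

theorem Q.symm {S : Set (ℤ × ℤ)} {a b : ℤ × ℤ} {r : ℚ} (h : Q S a b r) : Q S b a r := by
  obtain ⟨E, hE⟩ := h
  exact ⟨E, OP_symm hE⟩

theorem Q.mono {S S' : Set (ℤ × ℤ)} {a b : ℤ × ℤ} {r : ℚ} (h : Q S a b r) (hS : S ⊆ S') :
    Q S' a b r := by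
  obtain ⟨E, hE⟩ := h
  exact ⟨E, OP_mono hE hS⟩

theorem Q.ser {S₁ S₂ : Set (ℤ × ℤ)} {a j b : ℤ × ℤ} {r₁ r₂ : ℚ} (h₁ : Q S₁ a j r₁)
    (h₂ : Q S₂ j b r₂) (hS : ∀ x ∈ S₁, x ∈ S₂ → x = j) : Q (S₁ ∪ S₂) a b (r₁ + r₂) := by
  obtain ⟨E₁, hE₁⟩ := h₁
  obtain ⟨E₂, hE₂⟩ := h₂
  exact ⟨_, OP_series adj2_irr hE₁ hE₂ hS⟩

theorem Q.par {S₁ S₂ : Set (ℤ × ℤ)} {a b : ℤ × ℤ} {r₁ r₂ : ℚ} (h₁ : Q S₁ a b r₁)
    (h₂ : Q S₂ a b r₂) (hS : ∀ x ∈ S₁, x ∈ S₂ → x = a ∨ x = b) (hab : ¬ adj2 a b)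
    (hba : ¬ adj2 b a) (hr₁ : 0 < r₁) (hr₂ : 0 < r₂) :
    Q (S₁ ∪ S₂) a b (Pool.Agent.TH974.IH.par r₁ r₂) := by
  obtain ⟨E₁, hE₁⟩ := h₁
  obtain ⟨E₂, hE₂⟩ := h₂
  exact ⟨_, OP_parallel adj2_irr hE₁ hE₂ hS hab hba hr₁ hr₂⟩

theorem Q.cast {S : Set (ℤ × ℤ)} {a b a' b' : ℤ × ℤ} {r r' : ℚ} (h : Q S a b r) (ha : a = a')
    (hb : b = b') (hr : r = r') : Q S a' b' r' := by
  subst ha hb hr
  exact h

theorem Q.edge {a b : ℤ × ℤ} (h : adj2 a b) : Q {a, b} a b 1 :=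
  ⟨_, OP_edge (fun hab => adj2_irr a (by rw [← hab] at h; exact h)) h⟩

theorem adj_up (x y : ℤ) : adj2 (x, y) (x, y + 1) := by
  unfold adj2
  simp

theorem adj_right (x y : ℤ) : adj2 (x, y) (x + 1, y) := by
  unfold adj2
  simp

theorem qvert (x y : ℤ) (h : ℕ) (hh : 1 ≤ h) :
    Q {v | v.1 = x ∧ y ≤ v.2 ∧ v.2 ≤ y + h} (x, y) (x, y + h) h := by
  induction h, hh using Nat.le_induction with
  | base =>
    refine (Q.edge (adj_up x y)).mono ?_ |>.cast rfl (by simp) (by simp)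
    rintro ⟨u, v⟩ hv
    simp only [Set.mem_insert_iff, Set.mem_singleton_iff, Prod.mk.injEq, Set.mem_ofPred_eq] at hv ⊢
    push_cast
    omega
  | succ h hh ih =>
    refine ((ih.ser (Q.edge (adj_up x (y + h))) ?_).mono ?_).cast rfl
      (by push_cast; rw [add_assoc]) (by push_cast; ring)
    · rintro ⟨u, v⟩ hv hv'
      simp only [Set.mem_insert_iff, Set.mem_singleton_iff, Prod.mk.injEq, Set.mem_ofPred_eq]
        at hv hv' ⊢
      omega
    · rintro ⟨u, v⟩ hv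
      simp only [Set.mem_union, Set.mem_insert_iff, Set.mem_singleton_iff, Prod.mk.injEq,
        Set.mem_ofPred_eq] at hv ⊢
      push_cast
      omega

theorem qhorz (x y : ℤ) (h : ℕ) (hh : 1 ≤ h) :
    Q {v | v.2 = y ∧ x ≤ v.1 ∧ v.1 ≤ x + h} (x, y) (x + h, y) h := by
  induction h, hh using Nat.le_induction with
  | base =>
    refine (Q.edge (adj_right x y)).mono ?_ |>.cast rfl (by simp) (by simp)
    rintro ⟨u, v⟩ hv
    simp only [Set.mem_insert_iff, Set.mem_singleton_iff, Prod.mk.injEq, Set.mem_ofPred_eq] at hv ⊢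
    push_cast
    omega
  | succ h hh ih =>
    refine ((ih.ser (Q.edge (adj_right (x + h) y)) ?_).mono ?_).cast rfl
      (by push_cast; rw [add_assoc]) (by push_cast; ring)
    · rintro ⟨u, v⟩ hv hv'
      simp only [Set.mem_insert_iff, Set.mem_singleton_iff, Prod.mk.injEq, Set.mem_ofPred_eq]
        at hv hv' ⊢
      omega
    · rintro ⟨u, v⟩ hv
      simp only [Set.mem_union, Set.mem_insert_iff, Set.mem_singleton_iff, Prod.mk.injEq,
        Set.mem_ofPred_eq] at hv ⊢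
      push_cast
      omega

theorem qpair (x y : ℤ) (h e : ℕ) (he : e ≤ h) :
    Q ({v | x ≤ v.1 ∧ v.1 < x + 2 ∧ y ≤ v.2 ∧ v.2 ≤ y + h} ∪ {(x + 2, y)}) (x, y) (x + 2, y)
      (2 + 2 * e) := by
  rcases Nat.eq_zero_or_pos e with h0 | h0
  · subst h0
    refine ((qhorz x y 2 (by norm_num)).mono ?_).cast rfl (by simp) (by simp)
    rintro ⟨u, v⟩ hv
    simp only [Set.mem_union, Set.mem_insert_iff, Set.mem_singleton_iff, Prod.mk.injEq,
      Set.mem_ofPred_eq] at hv ⊢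
    push_cast at hv
    omega
  · have h1 := qvert x y e h0
    have h2 := Q.edge (adj_right x (y + e))
    have h3 := (qvert (x + 1) y e h0).symm
    have h4 := Q.edge (adj_right (x + 1) y)
    refine ((((h1.ser h2 ?_).ser h3 ?_).ser h4 ?_).mono ?_).cast rfl
      (by rw [add_assoc]; norm_num) (by ring)
    · rintro ⟨u, v⟩ hv hv'
      simp only [Set.mem_insert_iff, Set.mem_singleton_iff, Prod.mk.injEq, Set.mem_ofPred_eq]
        at hv hv' ⊢
      omega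
    · rintro ⟨u, v⟩ hv hv'
      simp only [Set.mem_union, Set.mem_insert_iff, Set.mem_singleton_iff, Prod.mk.injEq,
        Set.mem_ofPred_eq] at hv hv' ⊢
      omega
    · rintro ⟨u, v⟩ hv hv'
      simp only [Set.mem_union, Set.mem_insert_iff, Set.mem_singleton_iff, Prod.mk.injEq,
        Set.mem_ofPred_eq] at hv hv' ⊢
      omega
    · rintro ⟨u, v⟩ hv
      simp only [Set.mem_union, Set.mem_insert_iff, Set.mem_singleton_iff, Prod.mk.injEq,
        Set.mem_ofPred_eq] at hv ⊢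
      omega

theorem qrail (x y : ℤ) (m h e : ℕ) (hm : 1 ≤ m) (he : e ≤ m * h) :
    Q ({v | x ≤ v.1 ∧ v.1 < x + 2 * m ∧ y ≤ v.2 ∧ v.2 ≤ y + h} ∪ {(x + 2 * m, y)})
      (x, y) (x + 2 * m, y) (2 * m + 2 * e) := by
  induction m, hm using Nat.le_induction generalizing x e with
  | base =>
    rw [one_mul] at he
    refine ((qpair x y h e he).mono ?_).cast rfl (by simp) (by simp)
    rintro ⟨u, v⟩ hv
    simp only [Set.mem_union, Set.mem_insert_iff, Set.mem_singleton_iff, Prod.mk.injEq,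
      Set.mem_ofPred_eq] at hv ⊢
    push_cast
    omega
  | succ m hm ih =>
    have h1 := qpair x y h (min e h) (min_le_right _ _)
    have h2 := ih (x + 2) (e - min e h) (by
      rw [add_mul, one_mul] at he
      omega)
    refine ((h1.ser h2 ?_).mono ?_).cast rfl (by push_cast; ring_nf) ?_
    · rintro ⟨u, v⟩ hv hv'
      simp only [Set.mem_union, Set.mem_insert_iff, Set.mem_singleton_iff, Prod.mk.injEq,
        Set.mem_ofPred_eq] at hv hv' ⊢
      omega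
    · rintro ⟨u, v⟩ hv
      simp only [Set.mem_union, Set.mem_insert_iff, Set.mem_singleton_iff, Prod.mk.injEq,
        Set.mem_ofPred_eq] at hv ⊢
      push_cast
      omega
    · have h3 : ((e - min e h : ℕ) : ℚ) = (e : ℚ) - ((min e h : ℕ) : ℚ) := by
        rw [Nat.cast_sub (min_le_left _ _)]
      rw [h3]
      push_cast
      ring

theorem Q.swap {S : Set (ℤ × ℤ)} {a b : ℤ × ℤ} {r : ℚ} (h : Q S a b r) :
    Q (Prod.swap '' S) a.swap b.swap r := by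
  obtain ⟨E, hE⟩ := h
  refine ⟨_, OP_map Prod.swap hE (Prod.swap_injective.injOn) ?_⟩
  intro x _ y _ h
  unfold adj2 at h ⊢
  simp only [Prod.fst_swap, Prod.snd_swap]
  rw [add_comm]
  exact h

theorem qrung (x y : ℤ) (m b g : ℕ) (hm : 1 ≤ m) (hb : 1 ≤ b) (hg : g ≤ (m - 1) * (b - 1)) :
    Q ({v | x ≤ v.1 ∧ v.1 < x + b ∧ y < v.2 ∧ v.2 < y + 2 * m} ∪
      {(x, y), (x, y + 2 * m)}) (x, y) (x, y + 2 * m) (2 * m + 2 * g) := by
  obtain ⟨m, rfl⟩ : ∃ m', m = m' + 1 := ⟨m - 1, by omega⟩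
  rw [Nat.add_sub_cancel] at hg
  rcases Nat.eq_zero_or_pos m with h0 | h0
  · subst h0
    have hg0 : g = 0 := by simpa using hg
    subst hg0
    refine ((qvert x y 2 (by norm_num)).mono ?_).cast rfl (by simp) (by simp)
    rintro ⟨u, v⟩ hv
    simp only [Set.mem_union, Set.mem_insert_iff, Set.mem_singleton_iff, Prod.mk.injEq,
      Set.mem_ofPred_eq] at hv ⊢
    push_cast at hv ⊢
    omega
  · have h1 := (qrail (y + 1) x m (b - 1) g h0 hg).swap
    have h2 : Q ({v | x ≤ v.1 ∧ v.1 < x + b ∧ y + 1 ≤ v.2 ∧ v.2 < y + 1 + 2 * m} ∪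
        {(x, y + 1 + 2 * m)}) (x, y + 1) (x, y + 1 + 2 * m) (2 * m + 2 * g) := by
      refine h1.mono ?_
      rintro _ ⟨⟨u, v⟩, hv, rfl⟩
      simp only [Set.mem_union, Set.mem_insert_iff, Set.mem_singleton_iff, Prod.mk.injEq,
        Set.mem_ofPred_eq, Prod.swap_prod_mk] at hv ⊢
      omega
    have h3 := Q.edge (adj_up x y)
    have h4 := Q.edge (adj_up x (y + 1 + 2 * m))
    refine (((h3.ser h2 ?_).ser h4 ?_).mono ?_).cast rfl (by push_cast; ring_nf)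
      (by push_cast; ring)
    · rintro ⟨u, v⟩ hv hv'
      simp only [Set.mem_union, Set.mem_insert_iff, Set.mem_singleton_iff, Prod.mk.injEq,
        Set.mem_ofPred_eq] at hv hv' ⊢
      omega
    · rintro ⟨u, v⟩ hv hv'
      simp only [Set.mem_union, Set.mem_insert_iff, Set.mem_singleton_iff, Prod.mk.injEq,
        Set.mem_ofPred_eq] at hv hv' ⊢
      omega
    · rintro ⟨u, v⟩ hv
      simp only [Set.mem_union, Set.mem_insert_iff, Set.mem_singleton_iff, Prod.mk.injEq,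
        Set.mem_ofPred_eq] at hv ⊢
      push_cast
      omega

theorem vert2 (x y : ℤ) (h : ℕ) (hh : 1 ≤ h) :
    ∃ E, OP adj2 {v | v.1 = x ∧ y ≤ v.2 ∧ v.2 ≤ y + h} E (x, y) (x, y + h) h :=
  qvert x y h hh

theorem horz2 (x y : ℤ) (h : ℕ) (hh : 1 ≤ h) :
    ∃ E, OP adj2 {v | v.2 = y ∧ x ≤ v.1 ∧ v.1 ≤ x + h} E (x, y) (x + h, y) h :=
  qhorz x y h hh

theorem rail2 (x y : ℤ) (m h e : ℕ) (hm : 1 ≤ m) (he : e ≤ m * h) :
    ∃ E, OP adj2 ({v | x ≤ v.1 ∧ v.1 < x + 2 * m ∧ y ≤ v.2 ∧ v.2 ≤ y + h} ∪ {(x + 2 * m, y)}) E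
      (x, y) (x + 2 * m, y) (2 * m + 2 * e) :=
  qrail x y m h e hm he

theorem rung2 (x y : ℤ) (m b g : ℕ) (hm : 1 ≤ m) (hb : 1 ≤ b) (hg : g ≤ (m - 1) * (b - 1)) :
    ∃ E, OP adj2 ({v | x ≤ v.1 ∧ v.1 < x + b ∧ y < v.2 ∧ v.2 < y + 2 * m} ∪
      {(x, y), (x, y + 2 * m)}) E (x, y) (x, y + 2 * m) (2 * m + 2 * g) :=
  qrung x y m b g hm hb hg

end Pool.Agent.TH731.IHP
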