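import Pool.Agent.TH731.J2333

/-! IH-P5: planar ladders with prescribed elements. -/

set_option autoImplicit false
set_option linter.unusedSimpArgs false

open Finset MeasureTheory ProbabilityTheory Filter Topology
open scoped ENNReal NNReal

namespace Pool.Agent.TH731.IHP

open Pool.Agent.TH974.IH Pool.Agent.TH558.IH

theorem okT_pos {P : Par} {τ : ℕ} (h : P.okT τ) : 0 < τ := by
  obtain ⟨mb, mH, w, hmb, hmH, hw⟩ := P
  unfold Par.okT at h
  simp only at h
  omega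

theorem lad_pos {P : Par} {β : ℕ} (hβ : P.okT β) (l : List (ℕ × ℕ))
    (hl : ∀ c ∈ l, P.okS c.1 ∧ P.okT c.2) : 0 < lad l β := by
  induction l with
  | nil =>
    have := okT_pos hβ
    show (0 : ℚ) < (β : ℚ)
    exact_mod_cast this
  | cons c l ih =>
    have h1 := ih (fun c hc => hl c (List.mem_cons_of_mem _ hc))
    have h2 : (0 : ℚ) < (c.2 : ℚ) := by
      exact_mod_cast okT_pos (hl c List.mem_cons_self).2
    have h3 : (0 : ℚ) ≤ (c.1 : ℚ) := Nat.cast_nonneg _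
    show (0 : ℚ) < Pool.Agent.TH974.IH.par c.2 (c.1 + lad l β)
    unfold Pool.Agent.TH974.IH.par
    positivity

/-- the reflection `v ↦ (A - v.1, v.2 + w)` -/
theorem Q.refl {S : Set (ℤ × ℤ)} {a b : ℤ × ℤ} {r : ℚ} (h : Q S a b r) (A w : ℤ) :
    Q ((fun v : ℤ × ℤ => (A - v.1, v.2 + w)) '' S) (A - a.1, a.2 + w) (A - b.1, b.2 + w) r := by
  obtain ⟨E, hE⟩ := h
  refine ⟨_, OP_map (fun v : ℤ × ℤ => (A - v.1, v.2 + w)) hE ?_ ?_⟩
  · rintro ⟨u, v⟩ _ ⟨u', v'⟩ _ h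
    simp only [Prod.mk.injEq] at h ⊢
    omega
  · rintro ⟨u, v⟩ _ ⟨u', v'⟩ _ h
    unfold adj2 at h ⊢
    simp only at h ⊢
    rw [show A - u - (A - u') = -(u - u') by ring, abs_neg,
      show v + w - (v' + w) = v - v' by ring]
    exact h

/-- a ladder with `k` cells in the first row and `J` further rows -/
theorem claim (P : Par) (C : ℕ) (hC : 1 ≤ C) (β : ℕ) (hβ : P.okT β) (l : List (ℕ × ℕ)) :
    ∀ J k : ℕ, 1 ≤ k → k ≤ C → (∀ c ∈ l, P.okS c.1 ∧ P.okT c.2) → l.length + 1 ≤ k + J * C →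
    ∃ S, Q S (2 * (P.mb : ℤ) * ((C : ℤ) - k), 0) (2 * (P.mb : ℤ) * ((C : ℤ) - k), 2 * P.mH)
      (lad l β) ∧
      ∀ v ∈ S, 0 ≤ v.2 ∧ v.2 < ((J : ℤ) + 1) * P.w ∧ -2 ≤ v.1 ∧ v.1 ≤ 2 * (P.mb : ℤ) * C + 2 ∧
        (v.2 < P.w → 2 * (P.mb : ℤ) * ((C : ℤ) - k) ≤ v.1) := by
  induction l with
  | nil =>
    intro J k hk hkC _ _
    obtain ⟨mb, mH, w, hmb, hmH, hw⟩ := P
    unfold Par.okT at hβ
    simp only at hβ ⊢
    obtain ⟨g, hg⟩ : ∃ g, β = 2 * mH + 2 * g := by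
      obtain ⟨s, hs⟩ := hβ.1
      exact ⟨s - mH, by omega⟩
    have hX0 : 0 ≤ 2 * (mb : ℤ) * ((C : ℤ) - k) :=
      mul_nonneg (by positivity) (by omega)
    have hX1 : 2 * (mb : ℤ) * ((C : ℤ) - k) + 2 * mb ≤ 2 * (mb : ℤ) * C := by
      have h1 : 2 * (mb : ℤ) * 1 ≤ 2 * (mb : ℤ) * k :=
        mul_le_mul_of_nonneg_left (by omega) (by positivity)
      linarith [mul_sub (2 * (mb : ℤ)) (C : ℤ) k]
    have hJw : (w : ℤ) ≤ ((J : ℤ) + 1) * w := by
      have : 0 ≤ (J : ℤ) * w := by positivity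
      linarith
    have h1 := qrung (2 * (mb : ℤ) * ((C : ℤ) - k)) 0 mH (2 * mb) g hmH (by omega) (by omega)
    refine ⟨_, h1.cast rfl (by rw [zero_add]) ?_, ?_⟩
    · show _ = ((β : ℕ) : ℚ)
      rw [hg]
      push_cast
      ring
    · rintro ⟨u, v⟩ hv
      simp only [Set.mem_union, Set.mem_ofPred_eq, Prod.mk.injEq, Set.mem_singleton_iff,
        Set.mem_insert_iff] at hv ⊢
      push_cast at hv
      generalize 2 * (mb : ℤ) * ((C : ℤ) - k) = X at *
      generalize 2 * (mb : ℤ) * (C : ℤ) = A at *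
      generalize ((J : ℤ) + 1) * w = W at *
      omega
  | cons c l ih =>
    intro J k hk hkC hl hlen
    obtain ⟨σ, τ⟩ := c
    obtain ⟨hσ, hτ⟩ := hl (σ, τ) List.mem_cons_self
    have hl' : ∀ c ∈ l, P.okS c.1 ∧ P.okT c.2 := fun c hc => hl c (List.mem_cons_of_mem _ hc)
    have hR := lad_pos hβ l hl'
    rw [List.length_cons] at hlen
    have hlad : lad ((σ, τ) :: l) β = Pool.Agent.TH974.IH.par τ (σ + lad l β) := rfl
    rw [hlad]
    unfold Par.okS at hσ
    rcases Nat.lt_or_ge 1 k with hk2 | hk2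
    · obtain ⟨k, rfl⟩ : ∃ k', k = k' + 1 := ⟨k - 1, by omega⟩
      obtain ⟨S, hS, hb⟩ := ih J k (by omega) (by omega) hl' (by omega)
      have e1 : 2 * (P.mb : ℤ) * ((C : ℤ) - k) =
          2 * (P.mb : ℤ) * ((C : ℤ) - ((k + 1 : ℕ) : ℤ)) + 2 * P.mb := by
        push_cast; ring
      have h1 := qcell P (2 * (P.mb : ℤ) * ((C : ℤ) - ((k + 1 : ℕ) : ℤ))) 0 _ hR S
        (hS.cast (by rw [e1]) (by rw [e1, zero_add]) rfl) (by
          rintro ⟨u, v⟩ hv
          have h2 := hb _ hv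
          simp only at h2 ⊢
          generalize 2 * (P.mb : ℤ) * ((C : ℤ) - ((k + 1 : ℕ) : ℤ)) = X at *
          omega) σ τ hσ.1 (by omega) (by omega) hτ
      refine ⟨_, h1.cast rfl (by rw [zero_add]) rfl, ?_⟩
      have hX0 : 0 ≤ 2 * (P.mb : ℤ) * ((C : ℤ) - ((k + 1 : ℕ) : ℤ)) :=
        mul_nonneg (by positivity) (by omega)
      have hX1 : 2 * (P.mb : ℤ) * ((C : ℤ) - ((k + 1 : ℕ) : ℤ)) + 2 * P.mb ≤
          2 * (P.mb : ℤ) * C := by
        have h1 : 2 * (P.mb : ℤ) * 1 ≤ 2 * (P.mb : ℤ) * ((k + 1 : ℕ) : ℤ) :=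
          mul_le_mul_of_nonneg_left (by omega) (by positivity)
        linarith [mul_sub (2 * (P.mb : ℤ)) (C : ℤ) ((k + 1 : ℕ) : ℤ)]
      have hJw : (P.w : ℤ) ≤ ((J : ℤ) + 1) * P.w := by
        have : 0 ≤ (J : ℤ) * P.w := by positivity
        linarith
      rintro ⟨u, v⟩ hv
      rcases hv with hv | hv
      · have h2 := hb _ hv
        simp only at h2 ⊢
        rw [e1] at h2
        generalize 2 * (P.mb : ℤ) * ((C : ℤ) - ((k + 1 : ℕ) : ℤ)) = X at *
        generalize 2 * (P.mb : ℤ) * (C : ℤ) = A at *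
        generalize ((J : ℤ) + 1) * P.w = W at *
        have := P.hmb
        omega
      · simp only [Set.mem_ofPred_eq] at hv ⊢
        generalize 2 * (P.mb : ℤ) * ((C : ℤ) - ((k + 1 : ℕ) : ℤ)) = X at *
        generalize 2 * (P.mb : ℤ) * (C : ℤ) = A at *
        generalize ((J : ℤ) + 1) * P.w = W at *
        omega
    · obtain rfl : k = 1 := by omega
      have hJ : 1 ≤ J := by
        by_contra hc
        obtain rfl : J = 0 := by omega
        omega
      obtain ⟨J, rfl⟩ : ∃ J', J = J' + 1 := ⟨J - 1, by omega⟩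
      obtain ⟨S, hS, hb⟩ := ih J C hC le_rfl hl' (by
        rw [add_mul, one_mul] at hlen
        omega)
      have hz : 2 * (P.mb : ℤ) * ((C : ℤ) - (C : ℤ)) = 0 := by rw [sub_self, mul_zero]
      rw [hz] at hS hb
      have hw := P.hw
      have hmb := P.hmb
      have h1 := hS.refl (2 * (P.mb : ℤ) * C) P.w
      have h2 := quturn P (2 * (P.mb : ℤ) * C) 0 _ _ (h1.cast (by simp) (by
        simp only [sub_zero, zero_add, Prod.mk.injEq, true_and]; ring) rfl) (by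
          rintro _ ⟨⟨u, v⟩, hv, rfl⟩
          have h2 := hb _ hv
          simp only at h2 ⊢
          generalize 2 * (P.mb : ℤ) * (C : ℤ) = A at *
          omega)
      have e1 : 2 * (P.mb : ℤ) * C =
          2 * (P.mb : ℤ) * ((C : ℤ) - ((1 : ℕ) : ℤ)) + 2 * P.mb := by
        push_cast; ring
      have hR2 : (0 : ℚ) < lad l β + 6 + 2 * P.w := by positivity
      have h3 := qcell P (2 * (P.mb : ℤ) * ((C : ℤ) - ((1 : ℕ) : ℤ))) 0 _ hR2 _
        (h2.cast (by rw [e1]) (by rw [e1]) rfl) (by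
          rintro ⟨u, v⟩ hv
          rcases hv with ⟨⟨u', v'⟩, hv, hv'⟩ | hv
          · have h2 := hb _ hv
            simp only [Prod.mk.injEq] at h2 hv' ⊢
            omega
          · simp only [Set.mem_ofPred_eq] at hv ⊢
            rw [e1] at hv
            omega) (σ - (6 + 2 * P.w)) τ (by
              obtain ⟨s, hs⟩ := hσ.1
              exact ⟨s - (3 + P.w), by omega⟩) (by omega) (by omega) hτ
      refine ⟨_, h3.cast rfl (by rw [zero_add]) ?_, ?_⟩
      · congr 1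
        rw [Nat.cast_sub (by omega)]
        push_cast
        ring
      · have hX0 : 0 ≤ 2 * (P.mb : ℤ) * ((C : ℤ) - ((1 : ℕ) : ℤ)) :=
          mul_nonneg (by positivity) (by omega)
        have hJw : 2 * (P.w : ℤ) ≤ (((J + 1 : ℕ) : ℤ) + 1) * P.w := by
          have : 0 ≤ (J : ℤ) * P.w := by positivity
          push_cast
          linarith
        have hJw2 : (((J + 1 : ℕ) : ℤ) + 1) * P.w = ((J : ℤ) + 1) * P.w + P.w := by
          push_cast
          ring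
        rintro ⟨u, v⟩ hv
        rcases hv with (⟨⟨u', v'⟩, hv, hv'⟩ | hv) | hv
        · have h2 := hb _ hv
          simp only [Prod.mk.injEq] at h2 hv' ⊢
          rw [hJw2]
          rw [e1] at h2 hv' ⊢
          generalize 2 * (P.mb : ℤ) * ((C : ℤ) - ((1 : ℕ) : ℤ)) = X at *
          generalize ((J : ℤ) + 1) * P.w = W at *
          omega
        · simp only [Set.mem_ofPred_eq] at hv ⊢
          rw [hJw2] at hJw ⊢
          rw [e1] at hv ⊢
          generalize 2 * (P.mb : ℤ) * ((C : ℤ) - ((1 : ℕ) : ℤ)) = X at *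
          generalize ((J : ℤ) + 1) * P.w = W at *
          omega
        · simp only [Set.mem_ofPred_eq] at hv ⊢
          rw [hJw2] at hJw ⊢
          rw [e1]
          generalize 2 * (P.mb : ℤ) * ((C : ℤ) - ((1 : ℕ) : ℤ)) = X at *
          generalize ((J : ℤ) + 1) * P.w = W at *
          omega

theorem ladder2 (P : Par) (J C : ℕ) (hC : 1 ≤ C) (l : List (ℕ × ℕ)) (β : ℕ)
    (hl : ∀ c ∈ l, P.okS c.1 ∧ P.okT c.2) (hβ : P.okT β) (hlen : l.length + 1 ≤ J * C) :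
    ∃ S E, OP adj2 S E (0, 0) (0, 2 * P.mH) (lad l β) ∧ S ⊆ P.Reg J C := by
  have hJ : 1 ≤ J := by
    by_contra hc
    obtain rfl : J = 0 := by omega
    omega
  obtain ⟨J, rfl⟩ : ∃ J', J = J' + 1 := ⟨J - 1, by omega⟩
  obtain ⟨S, ⟨E, hE⟩, hb⟩ := claim P C hC β hβ l J C hC le_rfl hl (by
    rw [add_mul, one_mul] at hlen
    omega)
  have hz : 2 * (P.mb : ℤ) * ((C : ℤ) - (C : ℤ)) = 0 := by rw [sub_self, mul_zero]
  rw [hz] at hE hb
  refine ⟨S, E, hE, ?_⟩
  rintro ⟨u, v⟩ hv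
  have h2 := hb _ hv
  unfold Par.Reg
  simp only [Set.mem_ofPred_eq] at h2 ⊢
  push_cast
  have e1 : (C : ℤ) * (2 * (P.mb : ℤ)) = 2 * (P.mb : ℤ) * C := by ring
  rw [e1]
  exact h2

end Pool.Agent.TH731.IHP
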