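import Pool.Agent.TH28.FL.Dat
import Pool.Agent.W457.T4

/-!
# The theorem of Jacobson and Morozov inside a subalgebra (job 1772)
-/

set_option autoImplicit false

universe u v

namespace Pool.Agent.TH731.JM

open Module LieAlgebra

section endo

variable {K V : Type*} [Field K] [CharZero K] [AddCommGroup V] [Module K V]
  [FiniteDimensional K V]

omit [CharZero K] [FiniteDimensional K V] in
/-- powers of `A` and a second endomorphism whose commutator with `A` commutes with `A` -/
theorem pow_comm (A B C : Module.End K V) (hC : A * B - B * A = C) (hAC : A * C = C * A) (k : ℕ) :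
    A ^ (k + 1) * B - B * A ^ (k + 1) = ((k + 1 : ℕ) : K) • (C * A ^ k) := by
  have hpow : ∀ k : ℕ, A ^ k * C = C * A ^ k := fun k =>
    ((show Commute A C from hAC).pow_left k).eq
  induction k with
  | zero => simp [hC]
  | succ k ih =>
    have e1 : A ^ (k + 1 + 1) * B - B * A ^ (k + 1 + 1)
        = A * (A ^ (k + 1) * B - B * A ^ (k + 1)) + (A * B - B * A) * A ^ (k + 1) := by
      rw [pow_succ' A (k + 1)]; noncomm_ring
    rw [e1, ih, hC, mul_smul_comm, ← mul_assoc, hAC, mul_assoc, ← pow_succ']
    rw [show ((k + 1 + 1 : ℕ) : K) = ((k + 1 : ℕ) : K) + 1 by push_cast; ring, add_smul, one_smul]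

/-- If `A` is nilpotent and commutes with `C = [A, B]` then `A * B` has trace zero. -/
theorem trace_mul_eq_zero (A B : Module.End K V) (hA : IsNilpotent A)
    (h : A * (A * B - B * A) = (A * B - B * A) * A) : LinearMap.trace K V (A * B) = 0 := by
  set C := A * B - B * A with hC
  have hCn : IsNilpotent C := by
    apply Pool.Agent.W457.isNilpotent_of_trace_pow
    intro j
    have e1 : C ^ (j + 1) = A * (B * C ^ j) - (B * C ^ j) * A := by
      have hc : A * C ^ j = C ^ j * A := ((show Commute A C from h).pow_right j).eq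
      have h1 : C * C ^ j = (A * B - B * A) * C ^ j := by rw [← hC]
      rw [pow_succ', h1, mul_assoc B, ← hc, sub_mul, mul_assoc, mul_assoc]
    rw [e1, map_sub, LinearMap.trace_mul_comm, sub_self]
  obtain ⟨m, hm⟩ := hCn
  obtain ⟨N, hN⟩ := hA
  have hc := pow_comm A B C rfl h
  -- `A * B` maps `ker A ^ (i + 1)` into itself and raised to the power `m` into `ker A ^ i`
  have key : ∀ i : ℕ, ∀ v : V, (A ^ (i + 1)) v = 0 → ∀ j : ℕ,
      (A ^ (i + 1)) (((A * B) ^ j) v) = 0 ∧
      (A ^ i) (((A * B) ^ j) v) = ((i + 1 : ℕ) : K) ^ j • (C ^ j) ((A ^ i) v) := by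
    intro i v hv j
    have hpc : ∀ k l : ℕ, A ^ k * C ^ l = C ^ l * A ^ k := fun k l =>
      ((show Commute A C from h).pow_pow k l).eq
    induction j with
    | zero => simpa using hv
    | succ j ih =>
      obtain ⟨ih1, ih2⟩ := ih
      set u := ((A * B) ^ j) v with hu
      have h0 : ((A * B) ^ (j + 1)) v = A (B u) := by
        rw [pow_succ', Module.End.mul_apply, ← hu]; rfl
      have h1 : ∀ k : ℕ, (A ^ (k + 1)) (B u) = B ((A ^ (k + 1)) u) +
          ((k + 1 : ℕ) : K) • C ((A ^ k) u) := by
        intro k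
        have := congrArg (fun T : Module.End K V => T u) (hc k)
        simp only [LinearMap.sub_apply, Module.End.mul_apply, LinearMap.smul_apply] at this
        rw [← this]; abel
      have h2 : ∀ k : ℕ, (A ^ k) (A (B u)) = (A ^ (k + 1)) (B u) := by
        intro k
        rw [pow_succ, Module.End.mul_apply]
      refine ⟨?_, ?_⟩
      · rw [h0, h2, h1]
        have e2 : (A ^ (i + 1 + 1)) u = 0 := by
          rw [pow_succ', Module.End.mul_apply, ih1, map_zero]
        rw [e2, ih1]; simp
      · rw [h0, h2, h1, ih1, map_zero, zero_add, ih2, map_smul, smul_smul, ← Module.End.mul_apply,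
          ← pow_succ', ← pow_succ']
  have hker : ∀ i : ℕ, ∀ v : V, (A ^ i) v = 0 → ((A * B) ^ (m * i)) v = 0 := by
    intro i
    induction i with
    | zero => intro v hv; simpa using hv
    | succ i ih =>
      intro v hv
      have h1 := (key i v hv m).2
      rw [hm] at h1
      have h2 := ih _ (by rw [h1]; simp)
      rw [← Module.End.mul_apply, ← pow_add] at h2
      rw [mul_add, mul_one]
      exact h2
  have hnil : IsNilpotent (A * B) := by
    refine ⟨m * N, ?_⟩
    ext v
    rw [hker N v (by rw [hN]; simp)]; simp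
  exact (LinearMap.isNilpotent_trace_of_isNilpotent hnil).eq_zero

omit [CharZero K] [FiniteDimensional K V] in
/-- the relation `[E ^ (k + 1), F] = (k + 1) (H - k) E ^ k` -/
theorem pow_sl2 (E F H : Module.End K V) (h1 : E * F - F * E = H) (h2 : H * E - E * H = 2 • E)
    (k : ℕ) : E ^ (k + 1) * F - F * E ^ (k + 1)
      = ((k + 1 : ℕ) : K) • ((H - (k : K) • 1) * E ^ k) := by
  induction k with
  | zero => simp [h1]
  | succ k ih =>
    have e1 : E ^ (k + 1 + 1) * F - F * E ^ (k + 1 + 1)
        = E * (E ^ (k + 1) * F - F * E ^ (k + 1)) + (E * F - F * E) * E ^ (k + 1) := by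
      rw [pow_succ' E (k + 1)]; noncomm_ring
    have e2 : E * H = H * E - (2 : K) • E := by
      have : (2 : K) • E = 2 • E := by rw [two_smul, two_smul]
      rw [this, ← h2]; abel
    rw [e1, ih, h1, mul_smul_comm, ← mul_assoc, mul_sub, e2, mul_smul_comm, mul_one,
      pow_succ' E k]
    simp only [sub_mul, smul_mul_assoc, one_mul, ← mul_assoc]
    push_cast
    module

omit [FiniteDimensional K V] in
/-- If `E` is nilpotent then `H + 2` is injective on the kernel of `E`. -/
theorem eq_zero_of_ker (E F H : Module.End K V) (hE : IsNilpotent E) (h1 : E * F - F * E = H)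
    (h2 : H * E - E * H = 2 • E) (y : V) (hy : E y = 0) (hHy : H y = -((2 : K) • y)) : y = 0 := by
  obtain ⟨N, hN⟩ := hE
  have key : ∀ i : ℕ, ∃ x, (E ^ i) x = y := by
    intro i
    induction i with
    | zero => exact ⟨y, by simp⟩
    | succ i ih =>
      obtain ⟨x, hx⟩ := ih
      have h3 := congrArg (fun T : Module.End K V => T x) (pow_sl2 E F H h1 h2 i)
      simp only [LinearMap.sub_apply, Module.End.mul_apply, LinearMap.smul_apply, hx,
        Module.End.one_apply, hHy] at h3
      have h4 : (E ^ (i + 1)) x = 0 := by rw [pow_succ', Module.End.mul_apply, hx, hy]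
      rw [h4, map_zero, sub_zero] at h3
      have h5 : (E ^ (i + 1)) (F x) = (-(((i + 1 : ℕ) : K) * (2 + i))) • y := by
        rw [h3]; module
      have h6 : (-(((i + 1 : ℕ) : K) * (2 + i))) ≠ 0 := by
        rw [neg_ne_zero]
        refine mul_ne_zero (by exact_mod_cast Nat.succ_ne_zero i) ?_
        have : ((2 + i : ℕ) : K) ≠ 0 := by exact_mod_cast (by omega : 2 + i ≠ 0)
        simpa using this
      refine ⟨(-(((i + 1 : ℕ) : K) * (2 + i)))⁻¹ • F x, ?_⟩
      rw [map_smul, h5, smul_smul, inv_mul_cancel₀ h6, one_smul]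
  obtain ⟨x, hx⟩ := key N
  rw [← hx, hN]; simp

/-- If `E` is nilpotent then `H + 2` is surjective on the kernel of `E`. -/
theorem exists_of_ker (E F H : Module.End K V) (hE : IsNilpotent E) (h1 : E * F - F * E = H)
    (h2 : H * E - E * H = 2 • E) (z : V) (hz : E z = 0) :
    ∃ y, E y = 0 ∧ H y + (2 : K) • y = z := by
  have hst : ∀ y ∈ LinearMap.ker E, (H + (2 : K) • 1) y ∈ LinearMap.ker E := by
    intro y hy
    rw [LinearMap.mem_ker] at hy ⊢
    have h3 := congrArg (fun T : Module.End K V => T y) h2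
    simp only [LinearMap.sub_apply, Module.End.mul_apply, LinearMap.smul_apply, hy, map_zero,
      smul_zero, zero_sub, neg_eq_zero] at h3
    simp [h3, hy]
  set G := (H + (2 : K) • (1 : Module.End K V)).restrict hst with hG
  have hinj : Function.Injective G := by
    rw [← LinearMap.ker_eq_bot, LinearMap.ker_eq_bot']
    intro y hy
    have h3 : H (y : V) + (2 : K) • (y : V) = 0 := by
      have := congrArg (fun t : LinearMap.ker E => (t : V)) hy
      simpa [hG, LinearMap.restrict_apply] using this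
    have h4 := eq_zero_of_ker E F H hE h1 h2 (y : V) (LinearMap.mem_ker.1 y.2)
      (eq_neg_of_add_eq_zero_left h3)
    exact Subtype.ext h4
  have hsurj : Function.Surjective G := LinearMap.injective_iff_surjective.1 hinj
  obtain ⟨y, hy⟩ := hsurj ⟨z, LinearMap.mem_ker.2 hz⟩
  refine ⟨y, LinearMap.mem_ker.1 y.2, ?_⟩
  have := congrArg (fun t : LinearMap.ker E => (t : V)) hy
  simpa [hG, LinearMap.restrict_apply] using this

end endo

theorem killing_inv {K : Type u} {L : Type v} [Field K] [LieRing L] [LieAlgebra K L]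
    (x y z : L) : killingForm K L ⁅x, y⁆ z = killingForm K L x ⁅y, z⁆ :=
  LieModule.traceForm_apply_lie_apply K L L x y z

theorem killing_symm {K : Type u} {L : Type v} [Field K] [LieRing L] [LieAlgebra K L]
    (x y : L) : killingForm K L x y = killingForm K L y x :=
  LieModule.traceForm_comm K L L x y

/-- `κ (e, a) = 0` if `ad e` is nilpotent and `[e, [e, a]] = 0` -/
theorem killing_eq_zero {K : Type u} {L : Type v} [Field K] [CharZero K] [LieRing L]
    [LieAlgebra K L] [FiniteDimensional K L] (e a : L) (he : IsNilpotent (ad K L e))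
    (h : ⁅e, ⁅e, a⁆⁆ = 0) : killingForm K L e a = 0 := by
  rw [killingForm_apply_apply]
  have h1 : ad K L e * ad K L a - ad K L a * ad K L e = ad K L ⁅e, a⁆ := by
    ext x
    simp only [LinearMap.sub_apply, Module.End.mul_apply, ad_apply, lie_lie]
  refine trace_mul_eq_zero (ad K L e) (ad K L a) he ?_
  rw [h1]
  have h2 : ad K L e * ad K L ⁅e, a⁆ - ad K L ⁅e, a⁆ * ad K L e = ad K L ⁅e, ⁅e, a⁆⁆ := by
    ext x
    simp only [LinearMap.sub_apply, Module.End.mul_apply, ad_apply, lie_lie e ⁅e, a⁆]
  rw [h, map_zero] at h2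
  exact sub_eq_zero.1 h2

/-- **Jacobson–Morozov inside a subalgebra.** -/
theorem jm_aux (K : Type u) [Field K] [CharZero K] (L : Type v) [LieRing L] [LieAlgebra K L]
    [FiniteDimensional K L] (P : LieSubalgebra K L)
    (hP : ∀ x ∈ P, (∀ y ∈ P, killingForm K L x y = 0) → x = 0)
    (e : L) (he : e ∈ P) (he0 : e ≠ 0) (hen : IsNilpotent (ad K L e)) :
    ∃ h ∈ P, ∃ f ∈ P, IsSl2Triple h e f := by
  set e' : P := ⟨e, he⟩ with he'
  set E : Module.End K P := ad K P e' with hE
  have hEx : ∀ x : P, ((E x : P) : L) = ⁅e, (x : L)⁆ := fun x => rfl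
  have hEn : IsNilpotent E := by
    obtain ⟨N, hN⟩ := hen
    refine ⟨N, ?_⟩
    have hk : ∀ (k : ℕ) (x : P), (((E ^ k) x : P) : L) = ((ad K L e) ^ k) (x : L) := by
      intro k
      induction k with
      | zero => intro x; simp
      | succ k ih =>
        intro x
        rw [pow_succ', Module.End.mul_apply, hEx, ih, pow_succ', Module.End.mul_apply, ad_apply]
    ext x
    rw [hk, hN]; simp
  -- the bilinear form on `P`
  let T : P →ₗ[K] Module.Dual K P :=
    (killingForm K L).domRestrict₁₂ P.toSubmodule P.toSubmodule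
  have hT : ∀ x y : P, T x y = killingForm K L (x : L) (y : L) := fun x y => rfl
  have hTinj : Function.Injective T := by
    rw [← LinearMap.ker_eq_bot, LinearMap.ker_eq_bot']
    intro x hx
    apply Subtype.ext
    exact hP x x.2 fun y hy => by
      have := congrArg (fun g => g ⟨y, hy⟩) hx
      simpa [hT] using this
  have hTsurj : Function.Surjective T :=
    (LinearMap.injective_iff_surjective_of_finrank_eq_finrank
      (Subspace.dual_finrank_eq (K := K) (V := P)).symm).1 hTinj
  have hsa : ∀ x y : P, T (E x) y = - T x (E y) := by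
    intro x y
    have h1 : ⁅e, (x : L)⁆ = -⁅(x : L), e⁆ := (lie_skew _ _).symm
    rw [hT, hT, hEx, hEx, ← killing_inv, h1, map_neg, LinearMap.neg_apply]
  -- `e` is in the image of `E ^ 2`
  have hmem : e' ∈ LinearMap.range (E * E) := by
    by_contra hcon
    obtain ⟨φ, hφ, hφ0⟩ := Submodule.exists_le_ker_of_notMem hcon
    obtain ⟨a, ha⟩ := hTsurj φ
    have h1 : E (E a) = 0 := by
      apply hTinj
      rw [map_zero]
      ext x
      rw [hsa, hsa, neg_neg, ha]
      have : (E * E) x ∈ LinearMap.range (E * E) := ⟨x, rfl⟩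
      exact LinearMap.mem_ker.1 (hφ0 this)
    apply hφ
    rw [← ha, hT, killing_symm]
    apply killing_eq_zero e (a : L) hen
    have := congrArg (fun t : P => (t : L)) h1
    simpa [hEx] using this
  obtain ⟨g, hg⟩ := hmem
  set f1 : P := -((2 : K) • g) with hf1
  set h' : P := ⁅e', f1⁆ with hh'
  set F : Module.End K P := ad K P f1 with hF
  set H : Module.End K P := ad K P h' with hH
  have hge : ⁅e', ⁅e', g⁆⁆ = e' := by simpa [hE] using hg
  have hhe : ⁅h', e'⁆ = (2 : K) • e' := by
    rw [hh', ← lie_skew, hf1, lie_neg, lie_smul, lie_neg, lie_smul, hge, neg_neg]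
  have r1 : E * F - F * E = H := by
    ext x
    simp [hE, hF, hH, hh']
  have r2 : H * E - E * H = 2 • E := by
    ext x
    have : ⁅h', ⁅e', x⁆⁆ - ⁅e', ⁅h', x⁆⁆ = (2 : K) • ⁅e', x⁆ := by
      rw [← lie_lie, hhe, smul_lie]
    simp only [LinearMap.sub_apply, Module.End.mul_apply, hE, hH, ad_apply, LinearMap.smul_apply]
    rw [this, two_smul, two_smul]
  have hz : E (⁅h', f1⁆ + (2 : K) • f1) = 0 := by
    have h1 : ⁅e', ⁅h', f1⁆⁆ = -((2 : K) • h') := by
      have : ⁅e', ⁅h', f1⁆⁆ = ⁅⁅e', h'⁆, f1⁆ + ⁅h', ⁅e', f1⁆⁆ := leibniz_lie e' h' f1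
      rw [this, ← lie_skew e' h', hhe, ← hh', lie_self, add_zero, neg_lie, smul_lie, ← hh']
    rw [hE, ad_apply, lie_add, lie_smul, h1, ← hh']
    abel
  obtain ⟨y, hy1, hy2⟩ := exists_of_ker E F H hEn r1 r2 _ hz
  rw [hE, ad_apply] at hy1
  rw [hH, ad_apply] at hy2
  have hhne : h' ≠ 0 := by
    intro h0
    rw [h0, zero_lie] at hhe
    have : e' = 0 := by
      have h2 : (2 : K) ≠ 0 := two_ne_zero
      exact (smul_eq_zero.1 hhe.symm).resolve_left h2
    exact he0 (by simpa [he'] using congrArg (fun t : P => (t : L)) this)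
  have hf : ⁅e', f1 - y⁆ = h' := by rw [lie_sub, hy1, sub_zero, hh']
  have hhf : ⁅h', f1 - y⁆ = -((2 : K) • (f1 - y)) := by
    rw [lie_sub]
    have : ⁅h', y⁆ = ⁅h', f1⁆ + (2 : K) • f1 - (2 : K) • y := by rw [← hy2]; abel
    rw [this, smul_sub]; abel
  have two : ∀ t : L, (2 : K) • t = (2 : ℕ) • t := fun t => by rw [two_smul, two_smul]
  refine ⟨h', h'.2, ((f1 - y : P) : L), (f1 - y).2, ?_, ?_, ?_, ?_⟩
  · intro h0; exact hhne (Subtype.ext h0)
  · have := congrArg (fun t : P => (t : L)) hf
    simpa using this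
  · have := congrArg (fun t : P => (t : L)) hhe
    rw [← two]; exact this
  · have := congrArg (fun t : P => (t : L)) hhf
    rw [← two]; exact this

/-- Job 1772. -/
theorem jm : Pool.Agent.TH28.FL.S_JM.{u, v} := by
  intro K _ _ L _ _ _ P hP e he he0 hen
  exact jm_aux K L P hP e he he0 hen

end Pool.Agent.TH731.JM
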