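import Pool.Agent.TH694.FV.Defs2

/-! Feedback vertex sets: replacement of parts with two boundary vertices. -/

set_option autoImplicit false
set_option linter.unusedVariables false

namespace Pool.Agent.TH731.FVR

open Pool.Agent.TH694.FV

/-! ### forests -/

lemma parts (Y C : Finset Ed) : Y = (Y ∩ C) ∪ (Y \ C) := by
  ext e
  simp only [Finset.mem_union, Finset.mem_inter, Finset.mem_sdiff]
  tauto

lemma card_parts (Y C : Finset Ed) : (Y ∩ C).card + (Y \ C).card = Y.card := by
  rw [← Finset.card_union_of_disjoint, ← parts]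
  rw [Finset.disjoint_left]
  intro e he he'
  exact (Finset.mem_sdiff.mp he').2 (Finset.mem_inter.mp he).2

lemma forest_union {C₁ C₂ : Finset Ed} (h1 : Forest C₁) (h2 : Forest C₂)
    (h : (vs C₁ ∩ vs C₂).card ≤ 1) : Forest (C₁ ∪ C₂) := by
  intro Y hY hne
  have hs1 : Y ∩ C₁ ⊆ C₁ := Finset.inter_subset_right
  have hs2 : Y \ C₁ ⊆ C₂ := by
    intro e he
    rw [Finset.mem_sdiff] at he
    exact (Finset.mem_union.mp (hY he.1)).resolve_left he.2
  have hc := card_parts Y C₁
  have hvs : vs Y = vs (Y ∩ C₁) ∪ vs (Y \ C₁) := by rw [← vs_union, ← parts]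
  have hu := Finset.card_union_add_card_inter (vs (Y ∩ C₁)) (vs (Y \ C₁))
  have hi : (vs (Y ∩ C₁) ∩ vs (Y \ C₁)).card ≤ (vs C₁ ∩ vs C₂).card :=
    Finset.card_le_card (Finset.inter_subset_inter (vs_mono hs1) (vs_mono hs2))
  rw [hvs]
  rcases Finset.eq_empty_or_nonempty (Y ∩ C₁) with e1 | e1
  · rcases Finset.eq_empty_or_nonempty (Y \ C₁) with e2 | e2
    · rw [e1, e2] at hc
      simp only [Finset.card_empty] at hc
      have := hne.card_pos
      omega
    · have h4 := h2 _ hs2 e2
      have h5 : (vs (Y \ C₁)).card ≤ (vs (Y ∩ C₁) ∪ vs (Y \ C₁)).card :=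
        Finset.card_le_card Finset.subset_union_right
      rw [e1] at hc
      simp only [Finset.card_empty] at hc
      omega
  · rcases Finset.eq_empty_or_nonempty (Y \ C₁) with e2 | e2
    · have h4 := h1 _ hs1 e1
      have h5 : (vs (Y ∩ C₁)).card ≤ (vs (Y ∩ C₁) ∪ vs (Y \ C₁)).card :=
        Finset.card_le_card Finset.subset_union_left
      rw [e2] at hc
      simp only [Finset.card_empty] at hc
      omega
    · have h4 := h1 _ hs1 e1
      have h5 := h2 _ hs2 e2
      omega

lemma card_ends_le (e : Ed) : (ends e).card ≤ 2 := Finset.card_le_two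

lemma forest_union' {C₁ C₂ : Finset Ed} {e : Ed} (h1 : Forest C₁) (h2 : Forest (insert e C₂))
    (he : e ∉ C₂) (h : vs C₁ ∩ vs C₂ ⊆ ends e) : Forest (C₁ ∪ C₂) := by
  intro Y hY hne
  have hs1 : Y ∩ C₁ ⊆ C₁ := Finset.inter_subset_right
  have hs2 : Y \ C₁ ⊆ C₂ := by
    intro e he
    rw [Finset.mem_sdiff] at he
    exact (Finset.mem_union.mp (hY he.1)).resolve_left he.2
  have h2' : Forest C₂ := h2.mono (Finset.subset_insert _ _)
  have hc := card_parts Y C₁
  have hvs : vs Y = vs (Y ∩ C₁) ∪ vs (Y \ C₁) := by rw [← vs_union, ← parts]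
  have hu := Finset.card_union_add_card_inter (vs (Y ∩ C₁)) (vs (Y \ C₁))
  have hi : vs (Y ∩ C₁) ∩ vs (Y \ C₁) ⊆ ends e :=
    (Finset.inter_subset_inter (vs_mono hs1) (vs_mono hs2)).trans h
  have hi2 := Finset.card_le_card hi
  have hi3 := card_ends_le e
  rw [hvs]
  rcases Finset.eq_empty_or_nonempty (Y ∩ C₁) with e1 | e1
  · rcases Finset.eq_empty_or_nonempty (Y \ C₁) with e2 | e2
    · rw [e1, e2] at hc
      simp only [Finset.card_empty] at hc
      have := hne.card_pos
      omega
    · have h4 := h2' _ hs2 e2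
      have h5 : (vs (Y \ C₁)).card ≤ (vs (Y ∩ C₁) ∪ vs (Y \ C₁)).card :=
        Finset.card_le_card Finset.subset_union_right
      rw [e1] at hc
      simp only [Finset.card_empty] at hc
      omega
  · rcases Finset.eq_empty_or_nonempty (Y \ C₁) with e2 | e2
    · have h4 := h1 _ hs1 e1
      have h5 : (vs (Y ∩ C₁)).card ≤ (vs (Y ∩ C₁) ∪ vs (Y \ C₁)).card :=
        Finset.card_le_card Finset.subset_union_left
      rw [e2] at hc
      simp only [Finset.card_empty] at hc
      omega
    · have h4 := h1 _ hs1 e1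
      have h5 := h2' _ hs2 e2
      rcases Nat.lt_or_ge (vs (Y ∩ C₁) ∩ vs (Y \ C₁)).card 2 with h6 | h6
      · omega
      · have h7 : vs (Y ∩ C₁) ∩ vs (Y \ C₁) = ends e :=
          Finset.eq_of_subset_of_card_le hi (by omega)
        have h8 : vs (insert e (Y \ C₁)) = vs (Y \ C₁) := by
          rw [vs_insert, ← h7]
          exact Finset.union_eq_right.mpr Finset.inter_subset_right
        have h9 := h2 (insert e (Y \ C₁)) (Finset.insert_subset_insert _ hs2)
          (Finset.insert_nonempty _ _)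
        rw [h8, Finset.card_insert_of_notMem (fun h => he (hs2 h))] at h9
        omega

lemma not_forest_insert {C : Finset Ed} {e : Ed} (h : Forest C) (he : e ∉ C)
    (h2 : ¬ Forest (insert e C)) (hxy : px e ≠ py e) :
    ∃ Z ⊆ C, Z.Nonempty ∧ ends e ⊆ vs Z ∧ (vs Z).card = Z.card + 1 := by
  unfold Forest at h2
  push Not at h2
  obtain ⟨Y, hY, hne, hlt⟩ := h2
  have heY : e ∈ Y := by
    by_contra hc
    have : Y ⊆ C := fun f hf => by
      rcases Finset.mem_insert.mp (hY hf) with h3 | h3
      · exact absurd (h3 ▸ hf) hc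
      · exact h3
    have := h Y this hne
    omega
  have hZ : Y.erase e ⊆ C := fun f hf => by
    rw [Finset.mem_erase] at hf
    exact (Finset.mem_insert.mp (hY hf.2)).resolve_left hf.1
  have hYe : Y = insert e (Y.erase e) := (Finset.insert_erase heY).symm
  have hcard : Y.card = (Y.erase e).card + 1 := by
    conv_lhs => rw [hYe]
    rw [Finset.card_insert_of_notMem (Finset.notMem_erase _ _)]
  have hvs : vs Y = ends e ∪ vs (Y.erase e) := by
    conv_lhs => rw [hYe]
    rw [vs_insert]
  have hends : (ends e).card = 2 := by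
    unfold ends
    exact Finset.card_pair hxy
  have hle1 : (ends e).card ≤ (vs Y).card := by
    rw [hvs]; exact Finset.card_le_card Finset.subset_union_left
  have hle2 : (vs (Y.erase e)).card ≤ (vs Y).card := by
    rw [hvs]; exact Finset.card_le_card Finset.subset_union_right
  have hZne : (Y.erase e).Nonempty := by
    rw [Finset.nonempty_iff_ne_empty]
    intro h0
    rw [h0, Finset.card_empty] at hcard
    omega
  have h3 := h _ hZ hZne
  have h4 : vs (Y.erase e) = vs Y := by
    apply Finset.eq_of_subset_of_card_le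
    · rw [hvs]; exact Finset.subset_union_right
    · omega
  refine ⟨_, hZ, hZne, ?_, ?_⟩
  · rw [h4, hvs]; exact Finset.subset_union_left
  · omega

lemma forest_or {C₁ C₂ : Finset Ed} {e₁ e₂ : Ed} (h : Forest (C₁ ∪ C₂)) (hd : Disjoint C₁ C₂)
    (he₁ : e₁ ∉ C₁) (he₂ : e₂ ∉ C₂) (hends : ends e₁ = ends e₂) (h1 : px e₁ ≠ py e₁)
    (h2 : px e₂ ≠ py e₂) : Forest (insert e₁ C₁) ∨ Forest (insert e₂ C₂) := by
  by_contra hc
  push Not at hc
  obtain ⟨Z₁, hZ₁, n1, s1, c1⟩ := not_forest_insert (h.mono Finset.subset_union_left) he₁ hc.1 h1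
  obtain ⟨Z₂, hZ₂, n2, s2, c2⟩ := not_forest_insert (h.mono Finset.subset_union_right) he₂ hc.2 h2
  have h3 := h (Z₁ ∪ Z₂) (Finset.union_subset_union hZ₁ hZ₂) (n1.mono Finset.subset_union_left)
  rw [Finset.card_union_of_disjoint (Finset.disjoint_of_subset_left hZ₁
    (Finset.disjoint_of_subset_right hZ₂ hd)), vs_union] at h3
  have h4 := Finset.card_union_add_card_inter (vs Z₁) (vs Z₂)
  have h5 : (ends e₁).card ≤ (vs Z₁ ∩ vs Z₂).card :=
    Finset.card_le_card (Finset.subset_inter s1 (hends ▸ s2))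
  have h6 : (ends e₁).card = 2 := by
    unfold ends
    exact Finset.card_pair h1
  omega

lemma forest_single {e : Ed} (h : px e ≠ py e) : Forest {e} := by
  intro Y hY hne
  have hY' : Y = {e} := by
    rcases Finset.subset_singleton_iff.mp hY with h1 | h1
    · exact absurd h1 hne.ne_empty
    · exact h1
  rw [hY']
  have : vs {e} = ends e := by
    unfold vs
    rw [Finset.singleton_biUnion]
  rw [this]
  unfold ends
  rw [Finset.card_pair h, Finset.card_singleton]

/-! ### costs -/

lemma ecost_mono {X₁ X : Finset ℕ} {C₁ C : Finset Ed} {f : Ed} (hv : Valid f) (hX : X₁ ⊆ X)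
    (hC : f ∈ C₁ → px f ∉ X → py f ∉ X → f ∈ C) : ecost X C f ≤ ecost X₁ C₁ f := by
  obtain ⟨_, v1, v2, v3, v4, v5, v6, v7⟩ := hv
  unfold ecost
  by_cases a : px f ∈ X <;> by_cases b : py f ∈ X <;> by_cases a1 : px f ∈ X₁ <;>
    by_cases b1 : py f ∈ X₁ <;> by_cases c : f ∈ C <;> by_cases c1 : f ∈ C₁ <;>
    simp only [a, b, a1, b1, c, c1, if_true, if_false] <;>
    first
      | exact absurd (hX a1) a
      | exact absurd (hX b1) b
      | exact absurd (hC c1 a b) c
      | omega

lemma ecost_congr {X₁ X : Finset ℕ} {C₁ C : Finset Ed} {f : Ed} (hx : px f ∈ X₁ ↔ px f ∈ X)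
    (hy : py f ∈ X₁ ↔ py f ∈ X) (hC : f ∈ C₁ ↔ f ∈ C) : ecost X₁ C₁ f = ecost X C f := by
  unfold ecost
  simp only [hx, hy, hC]

/-- edges with both ends kept -/
def kp (X : Finset ℕ) (C : Finset Ed) : Finset Ed := C.filter (fun e => px e ∉ X ∧ py e ∉ X)

lemma mem_kp {X : Finset ℕ} {C : Finset Ed} {e : Ed} :
    e ∈ kp X C ↔ e ∈ C ∧ px e ∉ X ∧ py e ∉ X := by
  unfold kp
  rw [Finset.mem_filter]

/-- combination of two configurations -/
lemma comb {F B : Finset Ed} (hv : ∀ e ∈ F ∪ B, Valid e) (hd : Disjoint F B)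
    {X₁ X₂ X : Finset ℕ} {C₁ C₂ : Finset Ed} (h1 : X₁ ⊆ X) (h2 : X₂ ⊆ X) (hC1 : C₁ ⊆ F)
    (hC2 : C₂ ⊆ B) (hF : Forest (kp X (C₁ ∪ C₂))) :
    tau (F ∪ B) ∅ ≤ X.card + ∑ e ∈ F, ecost X₁ C₁ e + ∑ e ∈ B, ecost X₂ C₂ e := by
  have hcfg : Cfg (F ∪ B) ∅ X (kp X (C₁ ∪ C₂)) := by
    refine ⟨Finset.empty_subset _, ?_, ?_, hF⟩
    · intro e he
      rw [mem_kp] at he
      rcases Finset.mem_union.mp he.1 with h | h
      · exact Finset.mem_union_left _ (hC1 h)
      · exact Finset.mem_union_right _ (hC2 h)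
    · intro e he
      rw [mem_kp] at he
      exact he.2
  refine (tau_le hcfg).trans ?_
  unfold cost
  rw [Finset.sdiff_empty, Finset.sum_union hd, add_assoc]
  apply Nat.add_le_add_left
  apply Nat.add_le_add
  · apply Finset.sum_le_sum
    intro f hf
    apply ecost_mono (hv f (Finset.mem_union_left _ hf)) h1
    intro h3 h4 h5
    exact mem_kp.mpr ⟨Finset.mem_union_left _ h3, h4, h5⟩
  · apply Finset.sum_le_sum
    intro f hf
    apply ecost_mono (hv f (Finset.mem_union_right _ hf)) h2
    intro h3 h4 h5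
    exact mem_kp.mpr ⟨Finset.mem_union_right _ h3, h4, h5⟩

lemma kp_union (X : Finset ℕ) (C₁ C₂ : Finset Ed) : kp X (C₁ ∪ C₂) = kp X C₁ ∪ kp X C₂ := by
  ext e
  simp only [mem_kp, Finset.mem_union]
  tauto

lemma kp_sub (X : Finset ℕ) (C : Finset Ed) : kp X C ⊆ C := Finset.filter_subset _ _

lemma notMem_vs_kp {X : Finset ℕ} {C : Finset Ed} {v : ℕ} (hv : v ∈ X) : v ∉ vs (kp X C) := by
  intro h
  rw [mem_vs] at h
  obtain ⟨e, he, hve⟩ := h
  rw [mem_kp] at he
  rw [mem_ends] at hve
  rcases hve with h | h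
  · exact he.2.1 (h ▸ hv)
  · exact he.2.2 (h ▸ hv)

/-- the forest condition when one of the boundary vertices is deleted -/
lemma forest_kp {F B : Finset Ed} {x y : ℕ} (hVB : vs F ∩ vs B ⊆ {x, y}) {X : Finset ℕ}
    {C₁ C₂ : Finset Ed} (hC1 : C₁ ⊆ F) (hC2 : C₂ ⊆ B) (hF1 : Forest C₁) (hF2 : Forest C₂)
    (h : x ∈ X ∨ y ∈ X) : Forest (kp X (C₁ ∪ C₂)) := by
  rw [kp_union]
  apply forest_union (hF1.mono (kp_sub _ _)) (hF2.mono (kp_sub _ _))
  have h1 : vs (kp X C₁) ∩ vs (kp X C₂) ⊆ {x, y} := by
    refine Finset.Subset.trans (Finset.inter_subset_inter ?_ ?_) hVB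
    · exact vs_mono ((kp_sub _ _).trans hC1)
    · exact vs_mono ((kp_sub _ _).trans hC2)
  rcases h with h | h
  · have h2 : vs (kp X C₁) ∩ vs (kp X C₂) ⊆ {y} := by
      intro v hv
      have h3 := h1 hv
      rw [Finset.mem_insert, Finset.mem_singleton] at h3
      rcases h3 with h3 | h3
      · exact absurd (Finset.mem_inter.mp hv).1 (notMem_vs_kp (h3 ▸ h))
      · exact Finset.mem_singleton.mpr h3
    exact (Finset.card_le_card h2).trans (by simp)
  · have h2 : vs (kp X C₁) ∩ vs (kp X C₂) ⊆ {x} := by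
      intro v hv
      have h3 := h1 hv
      rw [Finset.mem_insert, Finset.mem_singleton] at h3
      rcases h3 with h3 | h3
      · exact Finset.mem_singleton.mpr h3
      · exact absurd (Finset.mem_inter.mp hv).1 (notMem_vs_kp (h3 ▸ h))
    exact (Finset.card_le_card h2).trans (by simp)

/-! ### simple facts -/

/-- deleting a vertex for free does not increase the cost -/
theorem tau_insert_le (F : Finset Ed) (hv : ∀ e ∈ F, Valid e) (D : Finset ℕ) (x : ℕ) :
    tau F (insert x D) ≤ tau F D := by
  obtain ⟨X, C, hc, hcost⟩ := exists_tau F D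
  rw [← hcost]
  have hcfg : Cfg F (insert x D) (insert x X) (kp (insert x X) C) := by
    refine ⟨Finset.insert_subset_insert _ hc.DX, (kp_sub _ _).trans hc.CH, ?_,
      hc.forest.mono (kp_sub _ _)⟩
    intro e he
    rw [mem_kp] at he
    exact he.2
  refine (tau_le hcfg).trans ?_
  unfold cost
  apply Nat.add_le_add
  · apply Finset.card_le_card
    intro v hv'
    rw [Finset.mem_sdiff, Finset.mem_insert, Finset.mem_insert, not_or] at hv'
    rw [Finset.mem_sdiff]
    exact ⟨hv'.1.resolve_left hv'.2.1, hv'.2.2⟩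
  · apply Finset.sum_le_sum
    intro f hf
    apply ecost_mono (hv f hf) (Finset.subset_insert _ _)
    intro h3 h4 h5
    exact mem_kp.mpr ⟨h3, h4, h5⟩

theorem tau_le_insert (F : Finset Ed) (D : Finset ℕ) (x : ℕ) :
    tau F D ≤ tau F (insert x D) + 1 := by
  obtain ⟨X, C, hc, hcost⟩ := exists_tau F (insert x D)
  rw [← hcost]
  have hcfg : Cfg F D X C :=
    ⟨(Finset.subset_insert _ _).trans hc.DX, hc.CH, hc.kept, hc.forest⟩
  refine (tau_le hcfg).trans ?_
  unfold cost
  have h1 : (X \ D).card ≤ (X \ insert x D).card + 1 := by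
    have h2 : X \ D ⊆ insert x (X \ insert x D) := by
      intro v hv
      rw [Finset.mem_sdiff] at hv
      rw [Finset.mem_insert, Finset.mem_sdiff, Finset.mem_insert, not_or]
      by_cases h : v = x
      · exact Or.inl h
      · exact Or.inr ⟨hv.1, h, hv.2⟩
    exact (Finset.card_le_card h2).trans (Finset.card_insert_le _ _)
  omega

lemma erase_cost {F : Finset Ed} {e : Ed} (he : e ∉ F) (X : Finset ℕ) (C : Finset Ed) :
    ∑ f ∈ F, ecost X (C.erase e) f = ∑ f ∈ F, ecost X C f := by
  refine Finset.sum_congr rfl fun f hf => ?_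
  apply ecost_congr Iff.rfl Iff.rfl
  rw [Finset.mem_erase]
  exact ⟨fun h => h.2, fun h => ⟨fun h' => he (h' ▸ hf), h⟩⟩

/-- The virtual edge. -/
theorem tau_le_E (F : Finset Ed) (hv : ∀ e ∈ F, Valid e) (k x y : ℕ) (hxy : x ≠ y)
    (hE : E k x y ∉ F) (D : Finset ℕ) :
    tau F D ≤ tau (insert (E k x y) F) D ∧
      (x ∈ D ∨ y ∈ D → tau (insert (E k x y) F) D = tau F D) := by
  have h1 : tau F D ≤ tau (insert (E k x y) F) D := by
    obtain ⟨X, C, hc, hcost⟩ := exists_tau (insert (E k x y) F) D
    rw [← hcost]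
    have hcfg : Cfg F D X (C.erase (E k x y)) := by
      refine ⟨hc.DX, ?_, ?_, hc.forest.mono (Finset.erase_subset _ _)⟩
      · intro f hf
        rw [Finset.mem_erase] at hf
        exact (Finset.mem_insert.mp (hc.CH hf.2)).resolve_left hf.1
      · intro f hf
        exact hc.kept f (Finset.mem_of_mem_erase hf)
    refine (tau_le hcfg).trans ?_
    unfold cost
    rw [erase_cost hE, Finset.sum_insert hE]
    omega
  refine ⟨h1, fun hD => le_antisymm ?_ h1⟩
  obtain ⟨X, C, hc, hcost⟩ := exists_tau F D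
  rw [← hcost]
  have hcfg : Cfg (insert (E k x y) F) D X C :=
    ⟨hc.DX, hc.CH.trans (Finset.subset_insert _ _), hc.kept, hc.forest⟩
  refine (tau_le hcfg).trans ?_
  unfold cost
  rw [Finset.sum_insert hE]
  have h2 : ecost X C (E k x y) = 0 := by
    unfold ecost
    rcases hD with h | h
    · have hx : px (E k x y) ∈ X := hc.DX h
      rw [if_pos hx]
      split_ifs <;> rfl
    · have hy : py (E k x y) ∈ X := hc.DX h
      rw [if_pos hy]
      split_ifs <;> rfl
  omega

/-- A vertex with at most one edge, where this edge does not care about the vertex. -/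
theorem tau_pendant (F : Finset Ed) (hv : ∀ e ∈ F, Valid e) (x : ℕ) (hdg : dg F x ≤ 1)
    (h : ∀ e ∈ F, (px e = x → cc e = ca e ∧ cb e = 0) ∧ (py e = x → cc e = cb e ∧ ca e = 0))
    (D : Finset ℕ) (hD : x ∉ D) : tau F (insert x D) = tau F D := by
  refine le_antisymm (tau_insert_le F hv D x) ?_
  obtain ⟨X, C, hc, hcost⟩ := exists_tau F (insert x D)
  rw [← hcost]
  have hxX : x ∈ X := hc.DX (Finset.mem_insert_self _ _)
  have hcard : (X.erase x \ D).card = (X \ insert x D).card := by
    congr 1
    ext v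
    rw [Finset.mem_sdiff, Finset.mem_sdiff, Finset.mem_erase, Finset.mem_insert, not_or]
    tauto
  have hDX : D ⊆ X.erase x := fun v hv' => Finset.mem_erase.mpr
    ⟨fun h' => hD (h' ▸ hv'), hc.DX (Finset.mem_insert_of_mem hv')⟩
  have hxC : x ∉ vs C := by
    intro hx
    rw [mem_vs] at hx
    obtain ⟨e, he, hxe⟩ := hx
    rw [mem_ends] at hxe
    have h2 := hc.kept e he
    rcases hxe with h3 | h3
    · exact h2.1 (h3 ▸ hxX)
    · exact h2.2 (h3 ▸ hxX)
  -- the new set of connected edges
  set C' : Finset Ed := C ∪ F.filter (fun e => x ∈ ends e ∧ px e ∉ X.erase x ∧ py e ∉ X.erase x)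
    with hC'
  have hset : ∀ f, f ∈ C' ↔ f ∈ C ∨ (f ∈ F ∧ x ∈ ends f ∧ px f ∉ X.erase x ∧ py f ∉ X.erase x) := by
    intro f
    rw [hC', Finset.mem_union, Finset.mem_filter]
  have hforest : Forest C' := by
    rcases Finset.eq_empty_or_nonempty
      (F.filter (fun e => x ∈ ends e ∧ px e ∉ X.erase x ∧ py e ∉ X.erase x)) with h0 | ⟨f, hf⟩
    · rw [hC', h0, Finset.union_empty]
      exact hc.forest
    · have h1 : F.filter (fun e => x ∈ ends e ∧ px e ∉ X.erase x ∧ py e ∉ X.erase x) = {f} := by
        apply Finset.eq_singleton_iff_unique_mem.mpr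
        refine ⟨hf, fun g hg => ?_⟩
        rw [Finset.mem_filter] at hf hg
        unfold dg at hdg
        rw [Finset.card_le_one] at hdg
        exact hdg g (Finset.mem_filter.mpr ⟨hg.1, hg.2.1⟩) f (Finset.mem_filter.mpr ⟨hf.1, hf.2.1⟩)
      rw [hC', h1]
      rw [Finset.mem_filter] at hf
      apply forest_union hc.forest (forest_single (hv f hf.1).1)
      have h2 : vs ({f} : Finset Ed) = ends f := by
        unfold vs
        rw [Finset.singleton_biUnion]
      rw [h2]
      have h3 : vs C ∩ ends f ⊆ (ends f).erase x := by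
        intro v hv'
        rw [Finset.mem_inter] at hv'
        exact Finset.mem_erase.mpr ⟨fun h' => hxC (h' ▸ hv'.1), hv'.2⟩
      have h4 := Finset.card_le_card h3
      rw [Finset.card_erase_of_mem hf.2.1] at h4
      have h5 := card_ends_le f
      omega
  have hcfg : Cfg F D (X.erase x) C' := by
    refine ⟨hDX, ?_, ?_, hforest⟩
    · intro f hf
      rcases (hset f).mp hf with h1 | h1
      · exact hc.CH h1
      · exact h1.1
    · intro f hf
      rcases (hset f).mp hf with h1 | h1
      · have h2 := hc.kept f h1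
        exact ⟨fun h' => h2.1 (Finset.mem_of_mem_erase h'),
          fun h' => h2.2 (Finset.mem_of_mem_erase h')⟩
      · exact h1.2.2
  refine (tau_le hcfg).trans ?_
  unfold cost
  rw [hcard]
  apply Nat.add_le_add_left
  apply Finset.sum_le_sum
  intro f hf
  by_cases hxf : x ∈ ends f
  · have hne := (hv f hf).1
    obtain ⟨p1, p2⟩ := h f hf
    have hfC : f ∉ C := by
      intro h'
      exact hxC (mem_vs.mpr ⟨f, h', hxf⟩)
    rw [mem_ends] at hxf
    rcases hxf with h1 | h1
    · obtain ⟨q1, q2⟩ := p1 h1.symm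
      have hpx : px f ∉ X.erase x := by
        rw [← h1]; exact Finset.notMem_erase _ _
      have hpx' : px f ∈ X := h1 ▸ hxX
      have hpy : py f ∈ X.erase x ↔ py f ∈ X := by
        rw [Finset.mem_erase]
        exact ⟨fun h' => h'.2, fun h' => ⟨fun h'' => hne (h1.symm.trans h''.symm), h'⟩⟩
      unfold ecost
      rw [if_neg hpx, if_pos hpx']
      by_cases hy : py f ∈ X
      · rw [if_pos (hpy.mpr hy), if_pos hy, q2]
      · rw [if_neg (fun h' => hy (hpy.mp h')), if_neg hy,
          if_pos ((hset f).mpr (Or.inr ⟨hf, mem_ends.mpr (Or.inl h1), hpx,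
            fun h' => hy (hpy.mp h')⟩)), q1]
    · obtain ⟨q1, q2⟩ := p2 h1.symm
      have hpy : py f ∉ X.erase x := by
        rw [← h1]; exact Finset.notMem_erase _ _
      have hpy' : py f ∈ X := h1 ▸ hxX
      have hpx : px f ∈ X.erase x ↔ px f ∈ X := by
        rw [Finset.mem_erase]
        exact ⟨fun h' => h'.2, fun h' => ⟨fun h'' => hne (h''.trans h1), h'⟩⟩
      unfold ecost
      by_cases hx : px f ∈ X
      · rw [if_pos (hpx.mpr hx), if_pos hx, if_neg hpy, if_pos hpy', q2]
      · rw [if_neg (fun h' => hx (hpx.mp h')), if_neg hx, if_neg hpy, if_pos hpy',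
          if_pos ((hset f).mpr (Or.inr ⟨hf, mem_ends.mpr (Or.inr h1),
            fun h' => hx (hpx.mp h'), hpy⟩)), q1]
  · rw [mem_ends, not_or] at hxf
    apply le_of_eq
    apply ecost_congr
    · rw [Finset.mem_erase]
      exact ⟨fun h' => h'.2, fun h' => ⟨fun h'' => hxf.1 h''.symm, h'⟩⟩
    · rw [Finset.mem_erase]
      exact ⟨fun h' => h'.2, fun h' => ⟨fun h'' => hxf.2 h''.symm, h'⟩⟩
    · rw [hset]
      constructor
      · rintro (h' | h')
        · exact h'
        · rw [mem_ends] at h'
          exact absurd h'.2.1 (not_or.mpr hxf)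
      · exact Or.inl

/-! ### the lower bound -/

/-- splitting of a configuration -/
lemma split_cfg {F B : Finset Ed} (hd : Disjoint F B) {S T : Finset ℕ} (hT : T ⊆ S)
    (hBS : vs B ⊆ S) (hFS : vs F ∩ S ⊆ T) {X : Finset ℕ} {C : Finset Ed}
    (hc : Cfg (F ∪ B) ∅ X C) :
    Cfg F (X ∩ T) ((X \ S) ∪ (X ∩ T)) (C ∩ F) ∧ (∀ f ∈ F, ecost ((X \ S) ∪ (X ∩ T)) (C ∩ F) f =
      ecost X C f) ∧ (∀ f ∈ B, ecost (X ∩ S) (C ∩ B) f = ecost X C f) ∧
      (((X \ S) ∪ (X ∩ T)) \ (X ∩ T)).card + (X ∩ S).card = X.card := by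
  have hmem : ∀ v ∈ vs F, (v ∈ (X \ S) ∪ (X ∩ T) ↔ v ∈ X) := by
    intro v hv
    rw [Finset.mem_union, Finset.mem_sdiff, Finset.mem_inter]
    constructor
    · rintro (h | h)
      · exact h.1
      · exact h.1
    · intro h
      by_cases hS : v ∈ S
      · exact Or.inr ⟨h, hFS (Finset.mem_inter.mpr ⟨hv, hS⟩)⟩
      · exact Or.inl ⟨h, hS⟩
  have hmem2 : ∀ v ∈ vs B, (v ∈ X ∩ S ↔ v ∈ X) := by
    intro v hv
    rw [Finset.mem_inter]
    exact ⟨fun h => h.1, fun h => ⟨h, hBS hv⟩⟩
  have hsub : (X \ S) ∪ (X ∩ T) ⊆ X := Finset.union_subset Finset.sdiff_subset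
    Finset.inter_subset_left
  refine ⟨⟨Finset.subset_union_right, Finset.inter_subset_right, ?_,
    hc.forest.mono Finset.inter_subset_left⟩, ?_, ?_, ?_⟩
  · intro f hf
    have h1 := hc.kept f (Finset.mem_inter.mp hf).1
    exact ⟨fun h => h1.1 (hsub h), fun h => h1.2 (hsub h)⟩
  · intro f hf
    apply ecost_congr
    · exact hmem _ (mem_vs.mpr ⟨f, hf, mem_ends.mpr (Or.inl rfl)⟩)
    · exact hmem _ (mem_vs.mpr ⟨f, hf, mem_ends.mpr (Or.inr rfl)⟩)
    · rw [Finset.mem_inter]
      exact ⟨fun h => h.1, fun h => ⟨h, hf⟩⟩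
  · intro f hf
    apply ecost_congr
    · exact hmem2 _ (mem_vs.mpr ⟨f, hf, mem_ends.mpr (Or.inl rfl)⟩)
    · exact hmem2 _ (mem_vs.mpr ⟨f, hf, mem_ends.mpr (Or.inr rfl)⟩)
    · rw [Finset.mem_inter]
      exact ⟨fun h => h.1, fun h => ⟨h, hf⟩⟩
  · have h1 : ((X \ S) ∪ (X ∩ T)) \ (X ∩ T) = X \ S := by
      ext v
      simp only [Finset.mem_sdiff, Finset.mem_union, Finset.mem_inter]
      constructor
      · rintro ⟨h | h, h'⟩
        · exact h
        · exact absurd h h'
      · intro h
        exact ⟨Or.inl h, fun h' => h.2 (hT h'.2)⟩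
    rw [h1, add_comm]
    exact Finset.card_inter_add_card_sdiff X S

/-- configurations of `insert e B` -/
lemma tau_insert_cfg {B : Finset Ed} {e : Ed} (heB : e ∉ B) {X : Finset ℕ} {C C' : Finset Ed}
    (hC' : C' = C ∨ C' = insert e C) (hCB : C ⊆ B)
    (hk : ∀ f ∈ C', px f ∉ X ∧ py f ∉ X) (hf : Forest C') :
    tau (insert e B) ∅ ≤ X.card + ecost X C' e + ∑ f ∈ B, ecost X C f := by
  have hcfg : Cfg (insert e B) ∅ X C' := by
    refine ⟨Finset.empty_subset _, ?_, hk, hf⟩
    rcases hC' with h | h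
    · rw [h]; exact hCB.trans (Finset.subset_insert _ _)
    · rw [h]; exact Finset.insert_subset_insert _ hCB
  refine (tau_le hcfg).trans ?_
  unfold cost
  rw [Finset.sdiff_empty, Finset.sum_insert heB, add_assoc]
  apply Nat.add_le_add_left
  apply Nat.add_le_add_left
  apply le_of_eq
  refine Finset.sum_congr rfl fun f hf' => ?_
  apply ecost_congr Iff.rfl Iff.rfl
  rcases hC' with h | h
  · rw [h]
  · rw [h, Finset.mem_insert]
    exact ⟨fun h' => h'.resolve_left (fun h'' => heB (h'' ▸ hf')), Or.inr⟩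

/-! ### the replacement -/

lemma card_union_le' (X₁ X₂ D : Finset ℕ) (h : D ⊆ X₂) :
    (X₁ ∪ X₂).card ≤ (X₁ \ D).card + X₂.card := by
  have h1 : X₁ ∪ X₂ ⊆ (X₁ \ D) ∪ X₂ := by
    intro v hv
    rw [Finset.mem_union] at hv ⊢
    rw [Finset.mem_sdiff]
    by_cases hD : v ∈ D
    · exact Or.inr (h hD)
    · rcases hv with hv | hv
      · exact Or.inl ⟨hv, hD⟩
      · exact Or.inr hv
  exact (Finset.card_le_card h1).trans (Finset.card_union_le _ _)

/-- the upper bound, when the forest condition is satisfied -/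
lemma upper {F B : Finset Ed} (hv : ∀ e ∈ F ∪ B, Valid e) (hd : Disjoint F B) {e : Ed}
    (heB : e ∉ B) {X₂ : Finset ℕ} {C' : Finset Ed} (hc : Cfg (insert e B) ∅ X₂ C')
    (hcost : cost (insert e B) ∅ X₂ C' = tau (insert e B) ∅) {D X₁ : Finset ℕ} {C₁ : Finset Ed}
    (hc1 : Cfg F D X₁ C₁) (hcost1 : cost F D X₁ C₁ = tau F D) (hD : D ⊆ X₂)
    (hF : Forest (kp (X₁ ∪ X₂) (C₁ ∪ C'.erase e))) (γ : ℕ) (hγ : tau F D = γ + ecost X₂ C' e) :
    tau (F ∪ B) ∅ ≤ γ + tau (insert e B) ∅ := by
  have hC2 : C'.erase e ⊆ B := by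
    intro f hf
    rw [Finset.mem_erase] at hf
    exact (Finset.mem_insert.mp (hc.CH hf.2)).resolve_left hf.1
  have h1 := comb hv hd (X₁ := X₁) (X₂ := X₂) (X := X₁ ∪ X₂) (C₁ := C₁) (C₂ := C'.erase e)
    Finset.subset_union_left Finset.subset_union_right hc1.CH hC2 hF
  have h2 := card_union_le' X₁ X₂ D hD
  rw [erase_cost heB] at h1
  unfold cost at hcost hcost1
  rw [Finset.sdiff_empty, Finset.sum_insert heB] at hcost
  omega

lemma erase_sub {B C' : Finset Ed} {e : Ed} (h : C' ⊆ insert e B) : C'.erase e ⊆ B := by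
  intro f hf
  rw [Finset.mem_erase] at hf
  exact (Finset.mem_insert.mp (h hf.2)).resolve_left hf.1

/-- **Replacement of a part with two boundary vertices by an edge.** -/
theorem replace (F B : Finset Ed) (x y k : ℕ) (hxy : x ≠ y) (hv : ∀ e ∈ F ∪ B, Valid e)
    (hd : Disjoint F B) (hVB : vs F ∩ vs B ⊆ {x, y}) (hE : E k x y ∉ F) (e : Ed)
    (hx : px e = x) (hy : py e = y) (heB : e ∉ B) (γ : ℕ) (hγ : tau F {x, y} = γ)
    (ha : tau F {x} = γ + ca e) (hb : tau F {y} = γ + cb e) (hc : tau F ∅ = γ + cc e)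
    (hdd : tau (insert (E k x y) F) ∅ = γ + cd e) :
    tau (F ∪ B) ∅ = γ + tau (insert e B) ∅ := by
  have hends : ends e = {x, y} := by unfold ends; rw [hx, hy]
  apply le_antisymm
  · -- upper bound
    obtain ⟨X₂, C', hc2, hcost2⟩ := exists_tau (insert e B) ∅
    have hC2 : C'.erase e ⊆ B := erase_sub hc2.CH
    have hF2 : Forest (C'.erase e) := hc2.forest.mono (Finset.erase_subset _ _)
    by_cases hx2 : x ∈ X₂
    · by_cases hy2 : y ∈ X₂
      · obtain ⟨X₁, C₁, hc1, hcost1⟩ := exists_tau F {x, y}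
        refine upper hv hd heB hc2 hcost2 hc1 hcost1 ?_ ?_ γ ?_
        · intro v hv'
          rw [Finset.mem_insert, Finset.mem_singleton] at hv'
          rcases hv' with h | h
          · rw [h]; exact hx2
          · rw [h]; exact hy2
        · exact forest_kp hVB hc1.CH hC2 hc1.forest hF2
            (Or.inl (Finset.mem_union_right _ hx2))
        · unfold ecost
          rw [hx, hy, if_pos hx2, if_pos hy2, hγ]
          rfl
      · obtain ⟨X₁, C₁, hc1, hcost1⟩ := exists_tau F {x}
        refine upper hv hd heB hc2 hcost2 hc1 hcost1 ?_ ?_ γ ?_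
        · intro v hv'
          rw [Finset.mem_singleton] at hv'
          rw [hv']; exact hx2
        · exact forest_kp hVB hc1.CH hC2 hc1.forest hF2
            (Or.inl (Finset.mem_union_right _ hx2))
        · unfold ecost
          rw [hx, hy, if_pos hx2, if_neg hy2, ha]
    · by_cases hy2 : y ∈ X₂
      · obtain ⟨X₁, C₁, hc1, hcost1⟩ := exists_tau F {y}
        refine upper hv hd heB hc2 hcost2 hc1 hcost1 ?_ ?_ γ ?_
        · intro v hv'
          rw [Finset.mem_singleton] at hv'
          rw [hv']; exact hy2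
        · exact forest_kp hVB hc1.CH hC2 hc1.forest hF2
            (Or.inr (Finset.mem_union_right _ hy2))
        · unfold ecost
          rw [hx, hy, if_neg hx2, if_pos hy2, hb]
      · by_cases heC : e ∈ C'
        · obtain ⟨X₁, C₁, hc1, hcost1⟩ := exists_tau F ∅
          refine upper hv hd heB hc2 hcost2 hc1 hcost1 (Finset.empty_subset _) ?_ γ ?_
          · by_cases h1 : x ∈ X₁ ∪ X₂ ∨ y ∈ X₁ ∪ X₂
            · exact forest_kp hVB hc1.CH hC2 hc1.forest hF2 h1
            · refine Forest.mono ?_ (kp_sub _ _)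
              apply forest_union' (e := e) hc1.forest
              · rw [Finset.insert_erase heC]
                exact hc2.forest
              · exact Finset.notMem_erase _ _
              · rw [hends]
                exact (Finset.inter_subset_inter (vs_mono hc1.CH) (vs_mono hC2)).trans hVB
          · unfold ecost
            rw [hx, hy, if_neg hx2, if_neg hy2, if_pos heC, hc]
        · obtain ⟨X₁, C₁, hc1, hcost1⟩ := exists_tau (insert (E k x y) F) ∅
          have hC1 : C₁.erase (E k x y) ⊆ F := erase_sub hc1.CH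
          have hF1 : Forest (C₁.erase (E k x y)) := hc1.forest.mono (Finset.erase_subset _ _)
          have hecost : ecost X₂ C' e = cd e := by
            unfold ecost
            rw [hx, hy, if_neg hx2, if_neg hy2, if_neg heC]
          unfold cost at hcost1 hcost2
          rw [Finset.sdiff_empty, Finset.sum_insert hE, ← erase_cost hE] at hcost1
          rw [Finset.sdiff_empty, Finset.sum_insert heB, ← erase_cost heB, hecost] at hcost2
          by_cases h1 : x ∈ X₁ ∪ X₂ ∨ y ∈ X₁ ∪ X₂
          · have h2 := comb hv hd (X₁ := X₁) (X₂ := X₂) (X := X₁ ∪ X₂) (C₁ := C₁.erase (E k x y))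
              (C₂ := C'.erase e) Finset.subset_union_left Finset.subset_union_right hC1 hC2
              (forest_kp hVB hC1 hC2 hF1 hF2 h1)
            have h3 := Finset.card_union_le X₁ X₂
            omega
          · rw [not_or, Finset.mem_union, Finset.mem_union, not_or, not_or] at h1
            by_cases hEC : E k x y ∈ C₁
            · have h2 := comb hv hd (X₁ := X₁) (X₂ := X₂) (X := X₁ ∪ X₂)
                (C₁ := C₁.erase (E k x y)) (C₂ := C'.erase e) Finset.subset_union_left
                Finset.subset_union_right hC1 hC2 (by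
                  refine Forest.mono ?_ (kp_sub _ _)
                  rw [Finset.union_comm]
                  apply forest_union' (e := E k x y) hF2
                  · rw [Finset.insert_erase hEC]
                    exact hc1.forest
                  · exact Finset.notMem_erase _ _
                  · rw [Finset.inter_comm]
                    exact (Finset.inter_subset_inter (vs_mono hC1) (vs_mono hC2)).trans hVB)
              have h3 := Finset.card_union_le X₁ X₂
              omega
            · have h4 : ecost X₁ C₁ (E k x y) = 1 := by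
                unfold ecost
                rw [if_neg h1.1.1, if_neg h1.2.1, if_neg hEC]
              have h2 := comb hv hd (X₁ := X₁) (X₂ := X₂) (X := insert x (X₁ ∪ X₂))
                (C₁ := C₁.erase (E k x y)) (C₂ := C'.erase e)
                (Finset.subset_union_left.trans (Finset.subset_insert _ _))
                (Finset.subset_union_right.trans (Finset.subset_insert _ _)) hC1 hC2
                (forest_kp hVB hC1 hC2 hF1 hF2 (Or.inl (Finset.mem_insert_self _ _)))
              have h3 := Finset.card_union_le X₁ X₂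
              have h5 := Finset.card_insert_le x (X₁ ∪ X₂)
              omega
  · -- lower bound
    obtain ⟨X, C, hcf, hcost⟩ := exists_tau (F ∪ B) ∅
    have hT : ({x, y} : Finset ℕ) ⊆ vs B ∪ {x, y} := Finset.subset_union_right
    have hFS : vs F ∩ (vs B ∪ {x, y}) ⊆ {x, y} := by
      intro v hv'
      rw [Finset.mem_inter, Finset.mem_union] at hv'
      rcases hv'.2 with h | h
      · exact hVB (Finset.mem_inter.mpr ⟨hv'.1, h⟩)
      · exact h
    obtain ⟨g1, g2, g3, g4⟩ := split_cfg hd hT Finset.subset_union_left hFS hcf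
    set S := vs B ∪ {x, y} with hS
    have hxS : x ∈ S := hT (Finset.mem_insert_self _ _)
    have hyS : y ∈ S := hT (Finset.mem_insert_of_mem (Finset.mem_singleton_self _))
    have hxX : x ∈ X ∩ S ↔ x ∈ X := by
      rw [Finset.mem_inter]; exact ⟨fun h => h.1, fun h => ⟨h, hxS⟩⟩
    have hyX : y ∈ X ∩ S ↔ y ∈ X := by
      rw [Finset.mem_inter]; exact ⟨fun h => h.1, fun h => ⟨h, hyS⟩⟩
    have hkept : ∀ f ∈ C ∩ B, px f ∉ X ∩ S ∧ py f ∉ X ∩ S := by
      intro f hf
      have h1 := hcf.kept f (Finset.mem_inter.mp hf).1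
      exact ⟨fun h => h1.1 (Finset.mem_inter.mp h).1, fun h => h1.2 (Finset.mem_inter.mp h).1⟩
    have hsumF : ∑ f ∈ F, ecost ((X \ S) ∪ (X ∩ {x, y})) (C ∩ F) f = ∑ f ∈ F, ecost X C f :=
      Finset.sum_congr rfl g2
    have hsumB : ∑ f ∈ B, ecost (X ∩ S) (C ∩ B) f = ∑ f ∈ B, ecost X C f :=
      Finset.sum_congr rfl g3
    have hforB : Forest (C ∩ B) := hcf.forest.mono Finset.inter_subset_left
    have heC : e ∉ C ∩ B := fun h => heB (Finset.mem_inter.mp h).2
    unfold cost at hcost
    rw [Finset.sdiff_empty, Finset.sum_union hd] at hcost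
    have t1 := tau_le g1
    unfold cost at t1
    rw [hsumF] at t1
    have t2 := tau_insert_cfg heB (X := X ∩ S) (C := C ∩ B) (C' := C ∩ B) (Or.inl rfl)
      Finset.inter_subset_right hkept hforB
    rw [hsumB] at t2
    by_cases hx1 : x ∈ X
    · by_cases hy1 : y ∈ X
      · have h1 : X ∩ {x, y} = {x, y} := by
          ext v
          simp only [Finset.mem_inter, Finset.mem_insert, Finset.mem_singleton]
          constructor
          · exact fun h => h.2
          · rintro (h | h)
            · exact ⟨h ▸ hx1, Or.inl h⟩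
            · exact ⟨h ▸ hy1, Or.inr h⟩
        rw [h1] at t1 g4
        have h2 : ecost (X ∩ S) (C ∩ B) e = 0 := by
          unfold ecost
          rw [hx, hy, if_pos (hxX.mpr hx1), if_pos (hyX.mpr hy1)]
        omega
      · have h1 : X ∩ {x, y} = {x} := by
          ext v
          simp only [Finset.mem_inter, Finset.mem_insert, Finset.mem_singleton]
          constructor
          · rintro ⟨h, h' | h'⟩
            · exact h'
            · exact absurd (h' ▸ h) hy1
          · intro h
            exact ⟨h ▸ hx1, Or.inl h⟩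
        rw [h1] at t1 g4
        have h2 : ecost (X ∩ S) (C ∩ B) e = ca e := by
          unfold ecost
          rw [hx, hy, if_pos (hxX.mpr hx1), if_neg (fun h => hy1 (hyX.mp h))]
        omega
    · by_cases hy1 : y ∈ X
      · have h1 : X ∩ {x, y} = {y} := by
          ext v
          simp only [Finset.mem_inter, Finset.mem_insert, Finset.mem_singleton]
          constructor
          · rintro ⟨h, h' | h'⟩
            · exact absurd (h' ▸ h) hx1
            · exact h'
          · intro h
            exact ⟨h ▸ hy1, Or.inr h⟩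
        rw [h1] at t1 g4
        have h2 : ecost (X ∩ S) (C ∩ B) e = cb e := by
          unfold ecost
          rw [hx, hy, if_neg (fun h => hx1 (hxX.mp h)), if_pos (hyX.mpr hy1)]
        omega
      · have h1 : X ∩ {x, y} = ∅ := by
          ext v
          simp only [Finset.mem_inter, Finset.mem_insert, Finset.mem_singleton]
          constructor
          · rintro ⟨h, h' | h'⟩
            · exact absurd (h' ▸ h) hx1
            · exact absurd (h' ▸ h) hy1
          · intro h
            exact absurd h (Finset.notMem_empty _)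
        rw [h1] at t1 g4 hsumF g1
        have hx3 : x ∉ X ∩ S := fun h => hx1 (hxX.mp h)
        have hy3 : y ∉ X ∩ S := fun h => hy1 (hyX.mp h)
        by_cases hfor : Forest (insert e (C ∩ B))
        · have t3 := tau_insert_cfg heB (X := X ∩ S) (C := C ∩ B) (C' := insert e (C ∩ B))
            (Or.inr rfl) Finset.inter_subset_right (by
              intro f hf
              rcases Finset.mem_insert.mp hf with h | h
              · rw [h, hx, hy]
                exact ⟨hx3, hy3⟩
              · exact hkept f h) hfor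
          rw [hsumB] at t3
          have h2 : ecost (X ∩ S) (insert e (C ∩ B)) e = cc e := by
            unfold ecost
            rw [hx, hy, if_neg hx3, if_neg hy3, if_pos (Finset.mem_insert_self _ _)]
          omega
        · have h2 : ecost (X ∩ S) (C ∩ B) e = cd e := by
            unfold ecost
            rw [hx, hy, if_neg hx3, if_neg hy3, if_neg heC]
          have hforE : Forest (insert (E k x y) (C ∩ F)) := by
            have hfu : Forest ((C ∩ F) ∪ (C ∩ B)) :=
              hcf.forest.mono (Finset.union_subset Finset.inter_subset_left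
                Finset.inter_subset_left)
            rcases forest_or (e₁ := E k x y) (e₂ := e) hfu
              (Finset.disjoint_of_subset_left Finset.inter_subset_right
                (Finset.disjoint_of_subset_right Finset.inter_subset_right hd))
              (fun h => hE (Finset.mem_inter.mp h).2) heC (by rw [hends]; rfl) hxy
              (by rw [hx, hy]; exact hxy) with h | h
            · exact h
            · exact absurd h hfor
          have hcfg : Cfg (insert (E k x y) F) ∅ ((X \ S) ∪ ∅) (insert (E k x y) (C ∩ F)) := by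
            refine ⟨Finset.empty_subset _, Finset.insert_subset_insert _ g1.CH, ?_, hforE⟩
            intro f hf
            rcases Finset.mem_insert.mp hf with h | h
            · rw [h, Finset.union_empty]
              exact ⟨fun h' => hx1 (Finset.mem_sdiff.mp h').1,
                fun h' => hy1 (Finset.mem_sdiff.mp h').1⟩
            · exact g1.kept f h
          have t3 := tau_le hcfg
          unfold cost at t3
          rw [Finset.sum_insert hE] at t3
          have h4 : ecost ((X \ S) ∪ ∅) (insert (E k x y) (C ∩ F)) (E k x y) = 0 := by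
            unfold ecost
            rw [if_neg (hcfg.kept _ (Finset.mem_insert_self _ _)).1,
              if_neg (hcfg.kept _ (Finset.mem_insert_self _ _)).2,
              if_pos (Finset.mem_insert_self _ _)]
          have h5 : ∑ f ∈ F, ecost ((X \ S) ∪ ∅) (insert (E k x y) (C ∩ F)) f =
              ∑ f ∈ F, ecost ((X \ S) ∪ ∅) (C ∩ F) f := by
            refine Finset.sum_congr rfl fun f hf => ?_
            apply ecost_congr Iff.rfl Iff.rfl
            rw [Finset.mem_insert]
            exact ⟨fun h => h.resolve_left (fun h' => hE (h' ▸ hf)), Or.inr⟩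
          rw [h5, hsumF, h4] at t3
          omega

/-- **Replacement of a part with at most one boundary vertex by a pendant edge.** -/
theorem replace_one (F B : Finset Ed) (x y : ℕ) (hxy : x ≠ y) (hv : ∀ e ∈ F ∪ B, Valid e)
    (hd : Disjoint F B) (hVB : vs F ∩ vs B ⊆ {x}) (hy' : y ∉ vs B) (e : Ed)
    (hx : px e = x) (hy : py e = y) (heB : e ∉ B) (γ : ℕ) (hγ : tau F {x, y} = γ)
    (ha : tau F {x} = γ + ca e) (hb : tau F {y} = γ + cb e) (hc : tau F ∅ = γ + cc e)
    (hdd : cd e = cc e) :
    tau (F ∪ B) ∅ = γ + tau (insert e B) ∅ := by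
  apply le_antisymm
  · obtain ⟨X₂, C', hc2, hcost2⟩ := exists_tau (insert e B) ∅
    have hC2 : C'.erase e ⊆ B := erase_sub hc2.CH
    have hF2 : Forest (C'.erase e) := hc2.forest.mono (Finset.erase_subset _ _)
    have hfor : ∀ (X : Finset ℕ) (C₁ : Finset Ed), C₁ ⊆ F → Forest C₁ →
        Forest (kp X (C₁ ∪ C'.erase e)) := by
      intro X C₁ h1 h2
      refine Forest.mono ?_ (kp_sub _ _)
      apply forest_union h2 hF2
      have h3 : vs C₁ ∩ vs (C'.erase e) ⊆ {x} :=
        (Finset.inter_subset_inter (vs_mono h1) (vs_mono hC2)).trans hVB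
      exact (Finset.card_le_card h3).trans (by simp)
    by_cases hx2 : x ∈ X₂
    · by_cases hy2 : y ∈ X₂
      · obtain ⟨X₁, C₁, hc1, hcost1⟩ := exists_tau F {x, y}
        refine upper hv hd heB hc2 hcost2 hc1 hcost1 ?_ (hfor _ _ hc1.CH hc1.forest) γ ?_
        · intro v hv'
          rw [Finset.mem_insert, Finset.mem_singleton] at hv'
          rcases hv' with h | h
          · rw [h]; exact hx2
          · rw [h]; exact hy2
        · unfold ecost
          rw [hx, hy, if_pos hx2, if_pos hy2, hγ]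
          rfl
      · obtain ⟨X₁, C₁, hc1, hcost1⟩ := exists_tau F {x}
        refine upper hv hd heB hc2 hcost2 hc1 hcost1 ?_ (hfor _ _ hc1.CH hc1.forest) γ ?_
        · intro v hv'
          rw [Finset.mem_singleton] at hv'
          rw [hv']; exact hx2
        · unfold ecost
          rw [hx, hy, if_pos hx2, if_neg hy2, ha]
    · by_cases hy2 : y ∈ X₂
      · obtain ⟨X₁, C₁, hc1, hcost1⟩ := exists_tau F {y}
        refine upper hv hd heB hc2 hcost2 hc1 hcost1 ?_ (hfor _ _ hc1.CH hc1.forest) γ ?_
        · intro v hv'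
          rw [Finset.mem_singleton] at hv'
          rw [hv']; exact hy2
        · unfold ecost
          rw [hx, hy, if_neg hx2, if_pos hy2, hb]
      · obtain ⟨X₁, C₁, hc1, hcost1⟩ := exists_tau F ∅
        refine upper hv hd heB hc2 hcost2 hc1 hcost1 (Finset.empty_subset _)
          (hfor _ _ hc1.CH hc1.forest) γ ?_
        unfold ecost
        rw [hx, hy, if_neg hx2, if_neg hy2, hdd, ite_self, hc]
  · obtain ⟨X, C, hcf, hcost⟩ := exists_tau (F ∪ B) ∅
    have hT : ({x} : Finset ℕ) ⊆ vs B ∪ {x} := Finset.subset_union_right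
    have hFS : vs F ∩ (vs B ∪ {x}) ⊆ {x} := by
      intro v hv'
      rw [Finset.mem_inter, Finset.mem_union] at hv'
      rcases hv'.2 with h | h
      · exact hVB (Finset.mem_inter.mpr ⟨hv'.1, h⟩)
      · exact h
    obtain ⟨g1, g2, g3, g4⟩ := split_cfg hd hT Finset.subset_union_left hFS hcf
    set S := vs B ∪ {x} with hS
    have hxS : x ∈ S := hT (Finset.mem_singleton_self _)
    have hyS : y ∉ S := by
      rw [hS, Finset.mem_union, Finset.mem_singleton, not_or]
      exact ⟨hy', hxy.symm⟩
    have hxX : x ∈ X ∩ S ↔ x ∈ X := by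
      rw [Finset.mem_inter]; exact ⟨fun h => h.1, fun h => ⟨h, hxS⟩⟩
    have hyX : y ∉ X ∩ S := fun h => hyS (Finset.mem_inter.mp h).2
    have hkept : ∀ f ∈ C ∩ B, px f ∉ X ∩ S ∧ py f ∉ X ∩ S := by
      intro f hf
      have h1 := hcf.kept f (Finset.mem_inter.mp hf).1
      exact ⟨fun h => h1.1 (Finset.mem_inter.mp h).1, fun h => h1.2 (Finset.mem_inter.mp h).1⟩
    have hsumF : ∑ f ∈ F, ecost ((X \ S) ∪ (X ∩ {x})) (C ∩ F) f = ∑ f ∈ F, ecost X C f :=
      Finset.sum_congr rfl g2
    have hsumB : ∑ f ∈ B, ecost (X ∩ S) (C ∩ B) f = ∑ f ∈ B, ecost X C f :=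
      Finset.sum_congr rfl g3
    have hforB : Forest (C ∩ B) := hcf.forest.mono Finset.inter_subset_left
    have heC : e ∉ C ∩ B := fun h => heB (Finset.mem_inter.mp h).2
    unfold cost at hcost
    rw [Finset.sdiff_empty, Finset.sum_union hd] at hcost
    have t1 := tau_le g1
    unfold cost at t1
    rw [hsumF] at t1
    have t2 := tau_insert_cfg heB (X := X ∩ S) (C := C ∩ B) (C' := C ∩ B) (Or.inl rfl)
      Finset.inter_subset_right hkept hforB
    rw [hsumB] at t2
    by_cases hx1 : x ∈ X
    · have h1 : X ∩ {x} = {x} := by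
        ext v
        rw [Finset.mem_inter, Finset.mem_singleton]
        exact ⟨fun h => h.2, fun h => ⟨h ▸ hx1, h⟩⟩
      rw [h1] at t1 g4
      have h2 : ecost (X ∩ S) (C ∩ B) e = ca e := by
        unfold ecost
        rw [hx, hy, if_pos (hxX.mpr hx1), if_neg hyX]
      omega
    · have h1 : X ∩ {x} = ∅ := by
        ext v
        rw [Finset.mem_inter, Finset.mem_singleton]
        exact ⟨fun h => absurd (h.2 ▸ h.1) hx1, fun h => absurd h (Finset.notMem_empty _)⟩
      rw [h1] at t1 g4
      have h2 : ecost (X ∩ S) (C ∩ B) e = cd e := by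
        unfold ecost
        rw [hx, hy, if_neg (fun h => hx1 (hxX.mp h)), if_neg hyX, if_neg heC]
      omega

end Pool.Agent.TH731.FVR
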