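import Pool.Agent.TH731.J2332

/-! IH-P3: one cell of the ladder. IH-P4: the U-turn between two rows. -/

set_option autoImplicit false
set_option linter.unusedSimpArgs false

open Finset MeasureTheory ProbabilityTheory Filter Topology
open scoped ENNReal NNReal

namespace Pool.Agent.TH731.IHP

open Pool.Agent.TH974.IH

theorem qcell (P : Par) (x y : ℤ) (R : ℚ) (hR : 0 < R) (S : Set (ℤ × ℤ))
    (h : Q S (x + 2 * P.mb, y) (x + 2 * P.mb, y + 2 * P.mH) R)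
    (hS : ∀ v ∈ S, ¬ (x ≤ v.1 ∧ v.1 < x + 2 * P.mb ∧ y ≤ v.2 ∧ v.2 < y + P.w))
    (σ τ : ℕ) (hσ : Even σ) (hσ1 : 4 * P.mb ≤ σ)
    (hσ2 : σ ≤ 4 * P.mb + 2 * (P.mb * (P.w - 1 - 2 * P.mH))) (hτ : P.okT τ) :
    Q (S ∪ {v | x ≤ v.1 ∧ v.1 < x + 2 * P.mb ∧ y ≤ v.2 ∧ v.2 < y + P.w})
      (x, y) (x, y + 2 * P.mH) (Pool.Agent.TH974.IH.par τ (σ + R)) := by
  obtain ⟨mb, mH, w, hmb, hmH, hw⟩ := P
  unfold Par.okT at hτ
  simp only at h hS hσ1 hσ2 hτ ⊢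
  obtain ⟨hτ0, hτ1, hτ2⟩ := hτ
  obtain ⟨e, he⟩ : ∃ e, σ = 4 * mb + 2 * e := by
    obtain ⟨s, hs⟩ := hσ
    exact ⟨s - 2 * mb, by omega⟩
  obtain ⟨g, hg⟩ : ∃ g, τ = 2 * mH + 2 * g := by
    obtain ⟨s, hs⟩ := hτ0
    exact ⟨s - mH, by omega⟩
  have he2 : e ≤ mb * (w - 1 - 2 * mH) := by omega
  have hg2 : g ≤ (mH - 1) * (2 * mb - 1) := by omega
  have b1 := (qhorz x y (2 * mb) (by omega)).cast rfl
    (show (x + ((2 * mb : ℕ) : ℤ), y) = (x + 2 * mb, y) by push_cast; rfl) rfl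
  have b2 := (qrail x (y + 2 * mH) mb (w - 1 - 2 * mH) e hmb he2).symm
  have c1 := (b1.ser h (by
    rintro ⟨u, v⟩ hv hv'
    have h1 := hS _ hv'
    simp only [Set.mem_ofPred_eq, Prod.mk.injEq] at hv h1 ⊢
    push_cast at hv
    omega)).ser b2 (by
    rintro ⟨u, v⟩ hv hv'
    rcases hv with hv | hv
    · simp only [Set.mem_union, Set.mem_ofPred_eq, Prod.mk.injEq, Set.mem_singleton_iff]
        at hv hv' ⊢
      push_cast at hv
      omega
    · have h1 := hS _ hv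
      simp only [Set.mem_union, Set.mem_ofPred_eq, Prod.mk.injEq, Set.mem_singleton_iff]
        at h1 hv' ⊢
      omega)
  have c2 := qrung x y mH (2 * mb) g hmH (by omega) hg2
  have hτq : (τ : ℚ) = 2 * mH + 2 * g := by rw [hg]; push_cast; ring
  have hσq : (σ : ℚ) = 4 * mb + 2 * e := by rw [he]; push_cast; ring
  have hna : ∀ u v : ℤ, |u| = 0 → |v| = 2 * (mH : ℤ) → |u| + |v| ≠ 1 := by
    intro u v hu hv
    rw [hu, hv]
    omega
  have hmHq : (1 : ℚ) ≤ mH := by exact_mod_cast hmH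
  have hgq : (0 : ℚ) ≤ g := Nat.cast_nonneg _
  have heq : (0 : ℚ) ≤ e := Nat.cast_nonneg _
  have hmbq : (1 : ℚ) ≤ mb := by exact_mod_cast hmb
  have c3 := Q.par c2 c1 (by
    rintro ⟨u, v⟩ hv hv'
    simp only [Set.mem_union, Set.mem_ofPred_eq, Prod.mk.injEq, Set.mem_singleton_iff,
      Set.mem_insert_iff] at hv hv' ⊢
    push_cast at hv hv'
    rcases hv' with (hv' | hv') | hv'
    · omega
    · have h1 := hS _ hv'
      simp only at h1
      omega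
    · omega)
    (by
      unfold adj2
      simp only
      apply hna
      · simp
      · rw [show y - (y + 2 * (mH : ℤ)) = -(2 * (mH : ℤ)) by ring, abs_neg, abs_of_nonneg]
        omega)
    (by
      unfold adj2
      simp only
      apply hna
      · simp
      · rw [show y + 2 * (mH : ℤ) - y = 2 * (mH : ℤ) by ring, abs_of_nonneg]
        omega)
    (by linarith) (by push_cast; linarith)
  refine (c3.mono ?_).cast rfl rfl ?_
  · rintro ⟨u, v⟩ hv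
    simp only [Set.mem_union, Set.mem_ofPred_eq, Prod.mk.injEq, Set.mem_singleton_iff,
      Set.mem_insert_iff] at hv ⊢
    push_cast at hv
    have hend : (x + 2 * (mb : ℤ), y) ∈ S := by
      obtain ⟨E, hE⟩ := h
      exact hE.2.1
    have hend2 : (x + 2 * (mb : ℤ), y + 2 * (mH : ℤ)) ∈ S := by
      obtain ⟨E, hE⟩ := h
      exact hE.2.2.1
    rcases hv with hv | (hv | hv) | hv
    · right; omega
    · by_cases hu : u = x + 2 * mb
      · left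
        have : v = y := by omega
        rw [hu, this]
        exact hend
      · right; omega
    · left; exact hv
    · by_cases hu : u = x + 2 * mb
      · left
        have : v = y + 2 * mH := by omega
        rw [hu, this]
        exact hend2
      · right; omega
  · rw [hτq, hσq]
    congr 1
    push_cast
    ring

theorem cell2 (P : Par) (x y : ℤ) (R : ℚ) (hR : 0 < R) (S : Set (ℤ × ℤ))
    (E : Finset ((ℤ × ℤ) × (ℤ × ℤ)))
    (h : OP adj2 S E (x + 2 * P.mb, y) (x + 2 * P.mb, y + 2 * P.mH) R)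
    (hS : ∀ v ∈ S, ¬ (x ≤ v.1 ∧ v.1 < x + 2 * P.mb ∧ y ≤ v.2 ∧ v.2 < y + P.w))
    (σ τ : ℕ) (hσ : Even σ) (hσ1 : 4 * P.mb ≤ σ)
    (hσ2 : σ ≤ 4 * P.mb + 2 * (P.mb * (P.w - 1 - 2 * P.mH))) (hτ : P.okT τ) :
    ∃ E', OP adj2 (S ∪ {v | x ≤ v.1 ∧ v.1 < x + 2 * P.mb ∧ y ≤ v.2 ∧ v.2 < y + P.w}) E'
      (x, y) (x, y + 2 * P.mH) (par τ (σ + R)) :=
  qcell P x y R hR S ⟨E, h⟩ hS σ τ hσ hσ1 hσ2 hτ

theorem quturn (P : Par) (x y : ℤ) (R : ℚ) (S : Set (ℤ × ℤ))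
    (h : Q S (x, y + P.w) (x, y + P.w + 2 * P.mH) R)
    (hS : ∀ v ∈ S, ¬ (x ≤ v.1 ∧ v.1 ≤ x + 2 ∧ y ≤ v.2 ∧ v.2 < y + P.w) ∧
      ¬ (x < v.1 ∧ v.1 ≤ x + 2 ∧ y ≤ v.2 ∧ v.2 ≤ y + P.w + 2 * P.mH)) :
    Q (S ∪ {v | x ≤ v.1 ∧ v.1 ≤ x + 2 ∧ y ≤ v.2 ∧ v.2 ≤ y + P.w + 2 * P.mH})
      (x, y) (x, y + 2 * P.mH) (R + 6 + 2 * P.w) := by
  obtain ⟨mb, mH, w, hmb, hmH, hw⟩ := P
  simp only at h hS ⊢
  -- the outer path
  have o1 := qhorz x y 2 (by norm_num)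
  have o2 := (qvert (x + ((2 : ℕ) : ℤ)) y (w + 2 * mH) (by omega)).cast rfl
    (show (x + ((2 : ℕ) : ℤ), y + ((w + 2 * mH : ℕ) : ℤ)) = (x + ((2 : ℕ) : ℤ), y + w + 2 * mH) by
      push_cast; rw [add_assoc]) rfl
  have o3 := (qhorz x (y + w + 2 * mH) 2 (by norm_num)).symm
  -- the inner path, reversed
  have i1 := qhorz x (y + w) 1 (by norm_num)
  have i2 := (qvert (x + ((1 : ℕ) : ℤ)) (y + 2 * mH) (w - 2 * mH) (by omega)).symm.cast
    (show (x + ((1 : ℕ) : ℤ), y + 2 * (mH : ℤ) + ((w - 2 * mH : ℕ) : ℤ)) =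
      (x + ((1 : ℕ) : ℤ), y + w) by
        have : ((w - 2 * mH : ℕ) : ℤ) = w - 2 * mH := by omega
        rw [this]
        ring_nf) rfl rfl
  have i3 := (qhorz x (y + 2 * mH) 1 (by norm_num)).symm
  have f1 : ∀ v ∈ S, ∀ v' : ℤ × ℤ, v = v' →
      ¬ (x ≤ v'.1 ∧ v'.1 ≤ x + 2 ∧ y ≤ v'.2 ∧ v'.2 < y + w) ∧
      ¬ (x < v'.1 ∧ v'.1 ≤ x + 2 ∧ y ≤ v'.2 ∧ v'.2 ≤ y + w + 2 * mH) := by
    intro v hv v' hv'
    rw [← hv']
    exact hS v hv
  have c := (((((o1.ser o2 (by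
    rintro ⟨u, v⟩ hv hv'
    simp only [Set.mem_ofPred_eq, Prod.mk.injEq] at hv hv' ⊢
    push_cast at hv hv' ⊢
    omega)).ser o3 (by
    rintro ⟨u, v⟩ hv hv'
    simp only [Set.mem_union, Set.mem_ofPred_eq, Prod.mk.injEq] at hv hv' ⊢
    push_cast at hv hv' ⊢
    omega)).ser h.symm (by
    rintro ⟨u, v⟩ hv hv'
    have h1 := hS _ hv'
    simp only [Set.mem_union, Set.mem_ofPred_eq, Prod.mk.injEq] at hv h1 ⊢
    push_cast at hv
    omega)).ser i1 (by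
    rintro ⟨u, v⟩ hv hv'
    simp only [Set.mem_union, Set.mem_ofPred_eq, Prod.mk.injEq] at hv hv' ⊢
    push_cast at hv hv'
    rcases hv with ((hv | hv) | hv) | hv
    · omega
    · omega
    · omega
    · have h1 := hS _ hv
      simp only at h1
      omega)).ser i2 (by
    rintro ⟨u, v⟩ hv hv'
    simp only [Set.mem_union, Set.mem_ofPred_eq, Prod.mk.injEq] at hv hv' ⊢
    push_cast at hv hv' ⊢
    rcases hv with (((hv | hv) | hv) | hv) | hv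
    · omega
    · omega
    · omega
    · have h1 := hS _ hv
      simp only at h1
      omega
    · omega)).ser i3 (by
    rintro ⟨u, v⟩ hv hv'
    simp only [Set.mem_union, Set.mem_ofPred_eq, Prod.mk.injEq] at hv hv' ⊢
    push_cast at hv hv' ⊢
    rcases hv with ((((hv | hv) | hv) | hv) | hv) | hv
    · omega
    · omega
    · omega
    · have h1 := hS _ hv
      simp only at h1
      omega
    · omega
    · omega)
  refine (c.mono ?_).cast rfl rfl ?_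
  · rintro ⟨u, v⟩ hv
    simp only [Set.mem_union, Set.mem_ofPred_eq] at hv ⊢
    push_cast at hv
    rcases hv with (((((hv | hv) | hv) | hv) | hv) | hv) | hv
    · right; omega
    · right; omega
    · right; omega
    · left; exact hv
    · right; omega
    · right; omega
    · right; omega
  · have h5 : ((w - 2 * mH : ℕ) : ℚ) = (w : ℚ) - 2 * mH := by
      rw [Nat.cast_sub (by omega)]
      push_cast
      rfl
    rw [h5]
    push_cast
    ring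

theorem uturn2 (P : Par) (x y : ℤ) (R : ℚ) (S : Set (ℤ × ℤ)) (E : Finset ((ℤ × ℤ) × (ℤ × ℤ)))
    (h : OP adj2 S E (x, y + P.w) (x, y + P.w + 2 * P.mH) R)
    (hS : ∀ v ∈ S, ¬ (x ≤ v.1 ∧ v.1 ≤ x + 2 ∧ y ≤ v.2 ∧ v.2 < y + P.w) ∧
      ¬ (x < v.1 ∧ v.1 ≤ x + 2 ∧ y ≤ v.2 ∧ v.2 ≤ y + P.w + 2 * P.mH)) :
    ∃ E', OP adj2 (S ∪ {v | x ≤ v.1 ∧ v.1 ≤ x + 2 ∧ y ≤ v.2 ∧ v.2 ≤ y + P.w + 2 * P.mH}) E'
      (x, y) (x, y + 2 * P.mH) (R + 6 + 2 * P.w) :=
  quturn P x y R S ⟨E, h⟩ hS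

end Pool.Agent.TH731.IHP
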